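import Pool.Agent.Y554.NC.SubB

/-!
The volume law and the moments, final form.
-/

set_option maxHeartbeats 400000

namespace Pool.Agent.Y554.NC

open H974 H31K Finset MeasureTheory Pool.Agent.W424.NC
open Pool.Agent.H160R2.CV

theorem meas_encard : Measurable
    (fun ω : sqLattice.edgeSet → Bool => ((cluster0 ω).encard : ENNReal)) := by
  have h1 : (fun ω : sqLattice.edgeSet → Bool => ((cluster0 ω).encard : ENNReal)) =
      fun ω => ∑' x : Vtx, Set.indicator {ω | x ∈ cluster0 ω} (fun _ => (1 : ENNReal)) ω := by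
    funext ω
    rw [← ENNReal.tsum_set_one, tsum_subtype (cluster0 ω) (fun _ => (1 : ENNReal))]
    rfl
  rw [h1]
  exact Measurable.ennreal_tsum (fun x => measurable_one.indicator (t10_meas x))

theorem setmul_le_lintegral {p : unitInterval} {A : Set (sqLattice.edgeSet → Bool)} {v : ℝ}
    {f : (sqLattice.edgeSet → Bool) → ENNReal} (hf : Measurable f)
    (hA : A ⊆ {ω | ENNReal.ofReal v ≤ f ω}) :
    ENNReal.ofReal v * bondLaw p A ≤ ∫⁻ ω, f ω ∂(bondLaw p) := by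
  calc ENNReal.ofReal v * bondLaw p A
      ≤ ENNReal.ofReal v * bondLaw p {ω | ENNReal.ofReal v ≤ f ω} :=
        mul_le_mul_right (measure_mono hA) _
    _ ≤ ∫⁻ ω, f ω ∂(bondLaw p) := mul_meas_ge_le_lintegral hf _

/-- Lower bound for the moments of the cluster size below the critical point. -/
theorem mom_lower (k : ℕ) : ∃ c : ℝ, 0 < c ∧ ∀ p : unitInterval, (p:ℝ) < 1/2 →
    ENNReal.ofReal (c * (1/2 - (p:ℝ))^(-((91 * ((k + 1 : ℕ):ℝ) - 5) / 36) : ℝ)) ≤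
      ∫⁻ ω, ((cluster0 ω).encard : ENNReal) ^ (k + 1) ∂(bondLaw p) := by
  obtain ⟨c, hc, h⟩ := vol_low
  obtain ⟨e, he⟩ : ∃ e : ℝ, e = (91 * ((k + 1 : ℕ):ℝ) - 5) / 36 := ⟨_, rfl⟩
  have he0 : 0 ≤ e := by
    rw [he]; push_cast
    have : (0:ℝ) ≤ k := Nat.cast_nonneg k
    linarith
  rw [← he]
  refine ⟨min (c ^ (k + 2)) ((1/4 : ℝ)^e), by positivity, fun p hp => ?_⟩
  obtain ⟨s, hs⟩ : ∃ s : ℝ, s = 1/2 - (p:ℝ) := ⟨_, rfl⟩
  have hs0 : 0 < s := by rw [hs]; linarith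
  have hs1 : s ≤ 1 := by have := p.2.1; rw [hs]; linarith
  rw [← hs]
  by_cases hp4 : (1/4:ℝ) ≤ p
  · obtain ⟨t, ht⟩ : ∃ t : ℝ, t = s^(4/3 : ℝ) := ⟨_, rfl⟩
    have ht0 : 0 < t := by rw [ht]; positivity
    have ht1 : t ≤ 1 := by rw [ht]; exact Real.rpow_le_one hs0.le hs1 (by norm_num)
    obtain ⟨n, hn, hnt, hnt2⟩ := scale_ceil ht0 ht1
    have hnr : (1:ℝ) ≤ n := by exact_mod_cast hn
    have hn0 : (0:ℝ) < n := by linarith
    have h1 := h p hp4 hp.le n hn (by rw [← hs, ← ht]; exact hnt2)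
    obtain ⟨v, hv⟩ : ∃ v : ℝ, v = c * (n:ℝ)^(91/48 : ℝ) := ⟨_, rfl⟩
    have hv0 : 0 < v := by rw [hv]; positivity
    rw [← hv] at h1
    have h2 : ENNReal.ofReal (v ^ (k + 1)) * bondLaw p (Big (ENNReal.ofReal v)) ≤
        ∫⁻ ω, ((cluster0 ω).encard : ENNReal) ^ (k + 1) ∂(bondLaw p) := by
      have h3 : Big (ENNReal.ofReal v) ⊆ {ω | ENNReal.ofReal (v ^ (k + 1)) ≤
          ((cluster0 ω).encard : ENNReal) ^ (k + 1)} := by
        intro ω hω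
        have h4 : ENNReal.ofReal v ≤ ((cluster0 ω).encard : ENNReal) := hω
        show ENNReal.ofReal (v ^ (k + 1)) ≤ ((cluster0 ω).encard : ENNReal) ^ (k + 1)
        rw [ENNReal.ofReal_pow hv0.le]
        exact pow_le_pow_left' h4 _
      exact setmul_le_lintegral (meas_encard.pow_const _) h3
    refine le_trans ?_ h2
    refine le_trans ?_ (mul_le_mul_right h1 _)
    rw [← ENNReal.ofReal_mul (by positivity)]
    apply ENNReal.ofReal_le_ofReal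
    have h5 : s^(-e) ≤ (n:ℝ)^((91 * ((k + 1 : ℕ):ℝ) - 5) / 48 : ℝ) := by
      have h6 : 1 / t ≤ (n:ℝ) := by rw [div_le_iff₀ ht0]; exact hnt
      calc s^(-e) = (1/t)^((91 * ((k + 1 : ℕ):ℝ) - 5) / 48 : ℝ) := by
            rw [one_div, ht, ← Real.rpow_neg hs0.le, ← Real.rpow_mul hs0.le, he]
            congr 1
            ring
        _ ≤ _ := by
            apply Real.rpow_le_rpow (by positivity) h6
            push_cast
            have : (0:ℝ) ≤ k := Nat.cast_nonneg k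
            linarith
    have h6 : v ^ (k + 1) * (c * (n:ℝ)^(-(5/48) : ℝ)) =
        c ^ (k + 2) * (n:ℝ)^((91 * ((k + 1 : ℕ):ℝ) - 5) / 48 : ℝ) := by
      have e1 : ((n:ℝ)^(91/48 : ℝ)) ^ (k + 1) * (n:ℝ)^(-(5/48) : ℝ) =
          (n:ℝ)^((91 * ((k + 1 : ℕ):ℝ) - 5) / 48 : ℝ) := by
        rw [← Real.rpow_natCast, ← Real.rpow_mul hn0.le, ← Real.rpow_add hn0]
        congr 1
        push_cast
        ring
      rw [hv, mul_pow, ← e1]
      ring
    rw [h6]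
    exact mul_le_mul (min_le_left _ _) h5 (by positivity) (by positivity)
  · push Not at hp4
    have hs4 : 1/4 ≤ s := by rw [hs]; linarith
    have h1 : (1:ENNReal) ≤ ∫⁻ ω, ((cluster0 ω).encard : ENNReal) ^ (k + 1) ∂(bondLaw p) := by
      calc (1:ENNReal) = ∫⁻ _, 1 ∂(bondLaw p) := by simp
        _ ≤ _ := by
            apply lintegral_mono
            intro ω
            exact one_le_pow_of_one_le' ((one_le_cnt 0 ω).trans (cnt_le_encard _ _)) _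
    refine le_trans ?_ h1
    rw [← ENNReal.ofReal_one]
    apply ENNReal.ofReal_le_ofReal
    have h2 : (1/4 : ℝ)^e ≤ s^e := Real.rpow_le_rpow (by norm_num) hs4 he0
    calc min (c ^ (k + 2)) ((1/4 : ℝ)^e) * s^(-e) ≤ s^e * s^(-e) :=
          mul_le_mul_of_nonneg_right ((min_le_right _ _).trans h2) (by positivity)
      _ = 1 := by rw [← Real.rpow_add hs0]; simp

theorem meas_Big (m : ℕ) : MeasurableSet (Big (m : ENNReal)) := by
  have e : Big (m : ENNReal) = ⋃ n : ℕ, {ω | (m : ENNReal) ≤ cnt (bx n) ω} := by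
    ext ω
    rw [Set.mem_iUnion]
    constructor
    · intro h
      have h1 : (m : ENNReal) ≤ ((cluster0 ω).encard : ENNReal) := h
      have h2 : (m : ℕ∞) ≤ (cluster0 ω).encard := by
        rw [← ENat.toENNReal_le]
        simpa using h1
      obtain ⟨t, ht, htm⟩ := Set.exists_subset_encard_eq h2
      have hfin : t.Finite := Set.finite_of_encard_eq_coe htm
      classical
      refine ⟨hfin.toFinset.sup nv, ?_⟩
      show (m : ENNReal) ≤ cnt (bx (hfin.toFinset.sup nv)) ω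
      rw [cnt_eq_card]
      have h3 : hfin.toFinset ⊆ (bx (hfin.toFinset.sup nv)).filter (· ∈ cluster0 ω) := by
        intro x hx
        rw [Finset.mem_filter, mem_bx']
        exact ⟨Finset.le_sup hx, ht (hfin.mem_toFinset.1 hx)⟩
      have h4 := Finset.card_le_card h3
      have h5 : hfin.toFinset.card = m := by
        have : (hfin.toFinset.card : ℕ∞) = m := by
          rw [← htm, ← Set.encard_coe_eq_coe_finsetCard, hfin.coe_toFinset]
        exact_mod_cast this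
      rw [h5] at h4
      exact_mod_cast h4
    · rintro ⟨n, hn⟩
      exact le_trans hn (cnt_le_encard _ _)
  rw [e]
  exact MeasurableSet.iUnion (fun n => measurableSet_le measurable_const (meas_cnt _))

/-- The volume law inside the critical window. -/
theorem big_lower : ∃ c : ℝ, 0 < c ∧ c ≤ 1 ∧ ∀ p : unitInterval, (1/4:ℝ) ≤ p → (p:ℝ) ≤ 1/2 →
    ∀ m : ℕ, 1 ≤ m → (m:ℝ) * (1/2 - (p:ℝ))^(91/36 : ℝ) ≤ c →
    ENNReal.ofReal (c * (m:ℝ)^(-(5/91) : ℝ)) ≤ bondLaw p (Big (m : ENNReal)) := by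
  obtain ⟨c, hc, h⟩ := vol_low
  obtain ⟨d, hd⟩ : ∃ d : ℝ, d = min c 1 := ⟨_, rfl⟩
  have hd0 : 0 < d := by rw [hd]; positivity
  have hd1 : d ≤ 1 := by rw [hd]; exact min_le_right _ _
  have hdc : d ≤ c := by rw [hd]; exact min_le_left _ _
  refine ⟨min d (d * (2 * d⁻¹^(48/91 : ℝ))^(-(5/48) : ℝ)), by positivity,
    (min_le_left _ _).trans hd1, ?_⟩
  intro p hp hp1 m hm hms
  have hmr : (1:ℝ) ≤ m := by exact_mod_cast hm
  have hm0 : (0:ℝ) < m := by linarith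
  have hs0 : 0 ≤ 1/2 - (p:ℝ) := by linarith
  have hmd : 1 ≤ (m:ℝ) / d := by rw [le_div_iff₀ hd0]; linarith
  obtain ⟨y, hy⟩ : ∃ y : ℝ, y = ((m:ℝ) / d)^(48/91 : ℝ) := ⟨_, rfl⟩
  have hy1 : 1 ≤ y := by rw [hy]; exact Real.one_le_rpow hmd (by norm_num)
  obtain ⟨n, hn⟩ : ∃ n : ℕ, n = ⌈y⌉₊ := ⟨_, rfl⟩
  have hyn : y ≤ n := by rw [hn]; exact Nat.le_ceil y
  have hn2 : (n:ℝ) ≤ 2 * y := by
    have := Nat.ceil_lt_add_one (a := y) (by linarith)
    rw [hn]; linarith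
  have hn1 : 1 ≤ n := by
    have : (1:ℝ) ≤ n := hy1.trans hyn
    exact_mod_cast this
  have hn0 : (0:ℝ) < n := by exact_mod_cast hn1
  have hyp : y^(91/48 : ℝ) = (m:ℝ) / d := by
    rw [hy, ← Real.rpow_mul (by positivity)]
    norm_num
  have hnt : (n:ℝ) * (1/2 - (p:ℝ))^(4/3 : ℝ) ≤ 2 := by
    have h1 : y * (1/2 - (p:ℝ))^(4/3 : ℝ) ≤ 1 := by
      have e1 : y * (1/2 - (p:ℝ))^(4/3 : ℝ) =
          (((m:ℝ) / d) * (1/2 - (p:ℝ))^(91/36 : ℝ))^(48/91 : ℝ) := by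
        rw [Real.mul_rpow (by positivity) (by positivity), ← Real.rpow_mul hs0, hy]
        norm_num
      rw [e1]
      apply Real.rpow_le_one (by positivity) _ (by norm_num)
      rw [div_mul_eq_mul_div, div_le_one hd0]
      exact hms.trans (min_le_left _ _)
    have h2 : 0 ≤ (1/2 - (p:ℝ))^(4/3 : ℝ) := Real.rpow_nonneg hs0 _
    calc (n:ℝ) * (1/2 - (p:ℝ))^(4/3 : ℝ) ≤ 2 * y * (1/2 - (p:ℝ))^(4/3 : ℝ) :=
          mul_le_mul_of_nonneg_right hn2 h2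
      _ ≤ 2 := by linarith
  have h1 := h p hp hp1 n hn1 hnt
  have h2 : Big (ENNReal.ofReal (c * (n:ℝ)^(91/48 : ℝ))) ⊆ Big (m : ENNReal) := by
    intro ω hω
    have hω' : ENNReal.ofReal (c * (n:ℝ)^(91/48 : ℝ)) ≤ ((cluster0 ω).encard : ENNReal) := hω
    show (m : ENNReal) ≤ ((cluster0 ω).encard : ENNReal)
    refine le_trans ?_ hω'
    rw [← ENNReal.ofReal_natCast]
    apply ENNReal.ofReal_le_ofReal
    calc (m:ℝ) = d * ((m:ℝ) / d) := by field_simp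
      _ = d * y^(91/48 : ℝ) := by rw [hyp]
      _ ≤ c * (n:ℝ)^(91/48 : ℝ) := by
          apply mul_le_mul hdc _ (by positivity) hc.le
          exact Real.rpow_le_rpow (by linarith) hyn (by norm_num)
  refine le_trans ?_ (h1.trans (measure_mono h2))
  apply ENNReal.ofReal_le_ofReal
  have h3 : (2 * d⁻¹^(48/91 : ℝ))^(-(5/48) : ℝ) * (m:ℝ)^(-(5/91) : ℝ) ≤ (n:ℝ)^(-(5/48) : ℝ) := by
    have e2 : (m:ℝ)^(-(5/91) : ℝ) = ((m:ℝ)^(48/91 : ℝ))^(-(5/48) : ℝ) := by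
      rw [← Real.rpow_mul hm0.le]
      norm_num
    rw [e2, ← Real.mul_rpow (by positivity) (by positivity)]
    apply Real.rpow_le_rpow_of_nonpos hn0 _ (by norm_num)
    calc (n:ℝ) ≤ 2 * y := hn2
      _ = 2 * d⁻¹^(48/91 : ℝ) * (m:ℝ)^(48/91 : ℝ) := by
          rw [hy, div_eq_mul_inv, Real.mul_rpow hm0.le (by positivity)]
          ring
  calc min d (d * (2 * d⁻¹^(48/91 : ℝ))^(-(5/48) : ℝ)) * (m:ℝ)^(-(5/91) : ℝ)
      ≤ d * (2 * d⁻¹^(48/91 : ℝ))^(-(5/48) : ℝ) * (m:ℝ)^(-(5/91) : ℝ) :=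
        mul_le_mul_of_nonneg_right (min_le_right _ _) (by positivity)
    _ = d * ((2 * d⁻¹^(48/91 : ℝ))^(-(5/48) : ℝ) * (m:ℝ)^(-(5/91) : ℝ)) := by ring
    _ ≤ c * (n:ℝ)^(-(5/48) : ℝ) := mul_le_mul hdc h3 (by positivity) hc.le

/-- Upper bound for the volume, at and below the critical point. -/
theorem big_upper : ∃ C : ℝ, 0 < C ∧ ∀ p : unitInterval, (p:ℝ) ≤ 1/2 → ∀ m : ℕ, 1 ≤ m →
    bondLaw p (Big (m : ENNReal)) ≤ ENNReal.ofReal (C * (m:ℝ)^(-(5/91) : ℝ)) := by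
  classical
  obtain ⟨C1, hC1, h1⟩ := cnt_moment 0
  obtain ⟨c3, C3, hc3, hC3, h3⟩ := arm_upper
  refine ⟨C3 + 4 * C1, by positivity, fun p hp m hm => ?_⟩
  have hmr : (1:ℝ) ≤ m := by exact_mod_cast hm
  have hm0 : (0:ℝ) < m := by linarith
  obtain ⟨y, hy⟩ : ∃ y : ℝ, y = (m:ℝ)^(48/91 : ℝ) := ⟨_, rfl⟩
  have hy1 : 1 ≤ y := by rw [hy]; exact Real.one_le_rpow hmr (by norm_num)
  obtain ⟨n, hn⟩ : ∃ n : ℕ, n = ⌈y⌉₊ := ⟨_, rfl⟩
  have hyn : y ≤ n := by rw [hn]; exact Nat.le_ceil y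
  have hn2 : (n:ℝ) ≤ 2 * y := by
    have := Nat.ceil_lt_add_one (a := y) (by linarith)
    rw [hn]; linarith
  have hn1 : 1 ≤ n := by
    have : (1:ℝ) ≤ n := hy1.trans hyn
    exact_mod_cast this
  have hsub : Big (m : ENNReal) ⊆ Rch n ∪ {ω | (m : ENNReal) ≤ cnt (bx n) ω ^ (0 + 1)} := by
    intro ω hω
    by_cases hR : ω ∈ Rch n
    · exact Or.inl hR
    · right
      have h4 : cluster0 ω ⊆ ↑(bx n) := by
        intro x hx
        rw [Finset.mem_coe, mem_bx']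
        by_contra h5
        exact hR (mem_Rch.2 ⟨x, hx, by omega⟩)
      show (m : ENNReal) ≤ cnt (bx n) ω ^ (0 + 1)
      rw [zero_add, pow_one]
      exact le_trans hω (encard_le_cnt h4)
  have h4 := h1 p hp n hn1
  have h5 := h3 p p.2.1 hp n hn1
  have h6 : arm p n ≤ C3 * (m:ℝ)^(-(5/91) : ℝ) := by
    refine h5.trans ?_
    have h7 : Real.exp (-(c3 * ((n:ℝ) * (1/2 - (p:ℝ))^(4/3 : ℝ)))) ≤ 1 := by
      rw [Real.exp_le_one_iff]
      have : 0 ≤ (1/2 - (p:ℝ))^(4/3 : ℝ) := by apply Real.rpow_nonneg; linarith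
      have : 0 ≤ c3 * ((n:ℝ) * (1/2 - (p:ℝ))^(4/3 : ℝ)) := by positivity
      linarith
    have h8 : (n:ℝ)^(-(5/48) : ℝ) ≤ (m:ℝ)^(-(5/91) : ℝ) := by
      have e2 : (m:ℝ)^(-(5/91) : ℝ) = y^(-(5/48) : ℝ) := by
        rw [hy, ← Real.rpow_mul hm0.le]
        norm_num
      rw [e2]
      exact Real.rpow_le_rpow_of_nonpos (by linarith) hyn (by norm_num)
    calc C3 * (n:ℝ)^(-(5/48) : ℝ) * Real.exp (-(c3 * ((n:ℝ) * (1/2 - (p:ℝ))^(4/3 : ℝ))))
        ≤ C3 * (n:ℝ)^(-(5/48) : ℝ) * 1 := mul_le_mul_of_nonneg_left h7 (by positivity)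
      _ ≤ C3 * (m:ℝ)^(-(5/91) : ℝ) := by
          rw [mul_one]
          exact mul_le_mul_of_nonneg_left h8 hC3.le
  have h7 : bondLaw p {ω | (m : ENNReal) ≤ cnt (bx n) ω ^ (0 + 1)} ≤
      ENNReal.ofReal (4 * C1 * (m:ℝ)^(-(5/91) : ℝ)) := by
    have hm1 : (m : ENNReal) ≠ 0 := by
      rw [Ne, Nat.cast_eq_zero]; omega
    have h8 := meas_ge_le_lintegral_div (μ := bondLaw p)
      ((meas_cnt (bx n)).pow_const (0 + 1)).aemeasurable hm1 (ENNReal.natCast_ne_top m)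
    refine h8.trans ?_
    refine (ENNReal.div_le_div_right h4 _).trans ?_
    rw [← ENNReal.ofReal_natCast m, ← ENNReal.ofReal_div_of_pos hm0]
    apply ENNReal.ofReal_le_ofReal
    have e1 : ((91 * ((0 + 1 : ℕ):ℝ) - 5) / 48 : ℝ) = 43/24 := by norm_num
    rw [e1, div_le_iff₀ hm0]
    have e2 : (n:ℝ)^(43/24 : ℝ) ≤ 4 * y^(43/24 : ℝ) := by
      calc (n:ℝ)^(43/24 : ℝ) ≤ (2 * y)^(43/24 : ℝ) :=
            Real.rpow_le_rpow (by positivity) hn2 (by norm_num)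
        _ = (2:ℝ)^(43/24 : ℝ) * y^(43/24 : ℝ) := Real.mul_rpow (by norm_num) (by linarith)
        _ ≤ 4 * y^(43/24 : ℝ) := by
            apply mul_le_mul_of_nonneg_right _ (by positivity)
            calc (2:ℝ)^(43/24 : ℝ) ≤ (2:ℝ)^(2:ℝ) :=
                  Real.rpow_le_rpow_of_exponent_le (by norm_num) (by norm_num)
              _ = 4 := by norm_num
    have e3 : y^(43/24 : ℝ) = (m:ℝ)^(-(5/91) : ℝ) * m := by
      have : (m:ℝ)^(-(5/91) : ℝ) * m = (m:ℝ)^(-(5/91) : ℝ) * (m:ℝ)^(1:ℝ) := by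
        rw [Real.rpow_one]
      rw [this, ← Real.rpow_add hm0, hy, ← Real.rpow_mul hm0.le]
      norm_num
    calc C1 * (n:ℝ)^(43/24 : ℝ) ≤ C1 * (4 * y^(43/24 : ℝ)) :=
          mul_le_mul_of_nonneg_left e2 (by linarith)
      _ = 4 * C1 * (m:ℝ)^(-(5/91) : ℝ) * m := by rw [e3]; ring
  calc bondLaw p (Big (m : ENNReal))
      ≤ bondLaw p (Rch n) + bondLaw p {ω | (m : ENNReal) ≤ cnt (bx n) ω ^ (0 + 1)} :=
        (measure_mono hsub).trans (measure_union_le _ _)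
    _ ≤ ENNReal.ofReal (C3 * (m:ℝ)^(-(5/91) : ℝ)) +
          ENNReal.ofReal (4 * C1 * (m:ℝ)^(-(5/91) : ℝ)) := by
        rw [Rch_law]
        exact add_le_add (ENNReal.ofReal_le_ofReal h6) h7
    _ = _ := by
        rw [← ENNReal.ofReal_add (by positivity) (by positivity)]
        congr 1
        ring

/-- The cut-off of the volume law. -/
theorem big_tail (k : ℕ) : ∃ C : ℝ, 0 < C ∧ ∀ p : unitInterval, (p:ℝ) < 1/2 → ∀ m : ℕ, 1 ≤ m →
    bondLaw p (Big (m : ENNReal)) ≤ ENNReal.ofReal (C * (m:ℝ)^(-(5/91) : ℝ) /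
      (1 + (m:ℝ) * (1/2 - (p:ℝ))^(91/36 : ℝ)) ^ k) := by
  obtain ⟨C1, hC1, h1⟩ := big_upper
  obtain ⟨C2, hC2, h2⟩ := mom_upper k
  refine ⟨(C1 + C2) * 2 ^ k, by positivity, fun p hp m hm => ?_⟩
  have hmr : (1:ℝ) ≤ m := by exact_mod_cast hm
  have hm0 : (0:ℝ) < m := by linarith
  obtain ⟨s, hs⟩ : ∃ s : ℝ, s = 1/2 - (p:ℝ) := ⟨_, rfl⟩
  have hs0 : 0 < s := by rw [hs]; linarith
  rw [← hs]
  obtain ⟨z, hz⟩ : ∃ z : ℝ, z = (m:ℝ) * s^(91/36 : ℝ) := ⟨_, rfl⟩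
  have hz0 : 0 < z := by rw [hz]; positivity
  rw [← hz]
  have hmp : 0 < (m:ℝ)^(-(5/91) : ℝ) := by positivity
  rcases le_or_gt z 1 with hz1 | hz1
  · refine (h1 p hp.le m hm).trans (ENNReal.ofReal_le_ofReal ?_)
    rw [le_div_iff₀ (by positivity)]
    have h3 : (1 + z) ^ k ≤ 2 ^ k := pow_le_pow_left₀ (by linarith) (by linarith) k
    calc C1 * (m:ℝ)^(-(5/91) : ℝ) * (1 + z) ^ k ≤ C1 * (m:ℝ)^(-(5/91) : ℝ) * 2 ^ k :=
          mul_le_mul_of_nonneg_left h3 (by positivity)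
      _ = C1 * 2 ^ k * (m:ℝ)^(-(5/91) : ℝ) := by ring
      _ ≤ (C1 + C2) * 2 ^ k * (m:ℝ)^(-(5/91) : ℝ) := by
          apply mul_le_mul_of_nonneg_right _ hmp.le
          apply mul_le_mul_of_nonneg_right _ (by positivity)
          linarith
  · have hmk : 0 < (m:ℝ) ^ (k + 1) := by positivity
    have h3 : ENNReal.ofReal ((m:ℝ) ^ (k + 1)) * bondLaw p (Big (m : ENNReal)) ≤
        ∫⁻ ω, ((cluster0 ω).encard : ENNReal) ^ (k + 1) ∂(bondLaw p) := by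
      have h4 : Big (m : ENNReal) ⊆ {ω | ENNReal.ofReal ((m:ℝ) ^ (k + 1)) ≤
          ((cluster0 ω).encard : ENNReal) ^ (k + 1)} := by
        intro ω hω
        have h5 : (m : ENNReal) ≤ ((cluster0 ω).encard : ENNReal) := hω
        show ENNReal.ofReal ((m:ℝ) ^ (k + 1)) ≤ ((cluster0 ω).encard : ENNReal) ^ (k + 1)
        rw [ENNReal.ofReal_pow hm0.le, ENNReal.ofReal_natCast]
        exact pow_le_pow_left' h5 _
      exact setmul_le_lintegral (meas_encard.pow_const _) h4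
    have h4 := h3.trans (h2 p hp)
    rw [← hs] at h4
    have h5 : bondLaw p (Big (m : ENNReal)) ≤ ENNReal.ofReal
        (C2 * s^(-((91 * ((k + 1 : ℕ):ℝ) - 5) / 36) : ℝ) / (m:ℝ) ^ (k + 1)) := by
      rw [ENNReal.ofReal_div_of_pos hmk, ENNReal.le_div_iff_mul_le
        (Or.inl (ENNReal.ofReal_pos.2 hmk).ne') (Or.inl ENNReal.ofReal_ne_top), mul_comm]
      exact h4
    refine h5.trans (ENNReal.ofReal_le_ofReal ?_)
    have e1 : s^(-((91 * ((k + 1 : ℕ):ℝ) - 5) / 36) : ℝ) =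
        z^(-((k + 1 : ℕ):ℝ) + 5/91 : ℝ) * (m:ℝ)^(((k + 1 : ℕ):ℝ) - 5/91 : ℝ) := by
      have e2 : s^(91/36 : ℝ) = z / m := by rw [hz]; field_simp
      have e3 : s^(-((91 * ((k + 1 : ℕ):ℝ) - 5) / 36) : ℝ) =
          (s^(91/36 : ℝ))^(-((k + 1 : ℕ):ℝ) + 5/91 : ℝ) := by
        rw [← Real.rpow_mul hs0.le]
        congr 1
        ring
      rw [e3, e2, Real.div_rpow hz0.le hm0.le, div_eq_mul_inv, ← Real.rpow_neg hm0.le]
      congr 2
      ring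
    have e4 : (m:ℝ)^(((k + 1 : ℕ):ℝ) - 5/91 : ℝ) / (m:ℝ) ^ (k + 1) = (m:ℝ)^(-(5/91) : ℝ) := by
      rw [← Real.rpow_natCast (m:ℝ) (k + 1), ← Real.rpow_sub hm0]
      congr 1
      ring
    have e5 : z^(-((k + 1 : ℕ):ℝ) + 5/91 : ℝ) ≤ 2 ^ k / (1 + z) ^ k := by
      have e6 : z^(-((k + 1 : ℕ):ℝ) + 5/91 : ℝ) ≤ z^(-(k:ℝ)) := by
        apply Real.rpow_le_rpow_of_exponent_le hz1.le
        push_cast
        linarith
      refine e6.trans ?_
      rw [Real.rpow_neg hz0.le, Real.rpow_natCast, ← div_pow, ← inv_pow]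
      apply pow_le_pow_left₀ (by positivity)
      rw [inv_eq_one_div, div_le_div_iff₀ hz0 (by linarith)]
      linarith
    calc C2 * s^(-((91 * ((k + 1 : ℕ):ℝ) - 5) / 36) : ℝ) / (m:ℝ) ^ (k + 1)
        = C2 * z^(-((k + 1 : ℕ):ℝ) + 5/91 : ℝ) *
          ((m:ℝ)^(((k + 1 : ℕ):ℝ) - 5/91 : ℝ) / (m:ℝ) ^ (k + 1)) := by rw [e1]; ring
      _ = C2 * z^(-((k + 1 : ℕ):ℝ) + 5/91 : ℝ) * (m:ℝ)^(-(5/91) : ℝ) := by rw [e4]
      _ ≤ C2 * (2 ^ k / (1 + z) ^ k) * (m:ℝ)^(-(5/91) : ℝ) := by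
          apply mul_le_mul_of_nonneg_right _ hmp.le
          exact mul_le_mul_of_nonneg_left e5 hC2.le
      _ = C2 * 2 ^ k * (m:ℝ)^(-(5/91) : ℝ) / (1 + z) ^ k := by ring
      _ ≤ (C1 + C2) * 2 ^ k * (m:ℝ)^(-(5/91) : ℝ) / (1 + z) ^ k := by
          apply div_le_div_of_nonneg_right _ (by positivity)
          apply mul_le_mul_of_nonneg_right _ hmp.le
          apply mul_le_mul_of_nonneg_right _ (by positivity)
          linarith

end Pool.Agent.Y554.NC
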