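import Pool.Agent.W424.NC.FarB
import Pool.Agent.W424.NC.Stab
import Pool.Agent.H31R3.Kes.Beta0
import Pool.Agent.H31R3.Kes.GLow

/-!
Bond percolation on `ℤ²`: sharp bounds (up to constants) for the percolation probability above the
critical point, and for the mean cluster size below it.
-/

set_option maxHeartbeats 400000

namespace Pool.Agent.Y554.NC

open H974 Finset Pool.Agent.W424.NC

/-- The scale `x` with `x ^ (3/4) = β / s`. -/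
theorem scale_exists {β s : ℝ} (hβ : 0 < β) (hs : 0 < s) (h : s ≤ β) :
    ∃ n : ℕ, 1 ≤ n ∧ s ≤ β * (n:ℝ)^(-(3/4) : ℝ) ∧ (n:ℝ) ≤ (β/s)^(4/3 : ℝ) ∧
      (β/s)^(4/3 : ℝ) ≤ 2 * n := by
  have h1 : 1 ≤ β / s := by rw [le_div_iff₀ hs, one_mul]; exact h
  have hx1 : 1 ≤ (β/s)^(4/3 : ℝ) := Real.one_le_rpow h1 (by norm_num)
  have hx0 : 0 < (β/s)^(4/3 : ℝ) := by linarith
  refine ⟨⌊(β/s)^(4/3 : ℝ)⌋₊, Nat.le_floor (by exact_mod_cast hx1), ?_, Nat.floor_le hx0.le, ?_⟩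
  · have hn1 : 1 ≤ ⌊(β/s)^(4/3 : ℝ)⌋₊ := Nat.le_floor (by exact_mod_cast hx1)
    have hn0 : (0:ℝ) < (⌊(β/s)^(4/3 : ℝ)⌋₊ : ℝ) := by exact_mod_cast hn1
    have hle := Nat.floor_le hx0.le
    have h2 : (⌊(β/s)^(4/3 : ℝ)⌋₊ : ℝ)^(3/4 : ℝ) ≤ β / s := by
      calc (⌊(β/s)^(4/3 : ℝ)⌋₊ : ℝ)^(3/4 : ℝ) ≤ ((β/s)^(4/3 : ℝ))^(3/4 : ℝ) :=
            Real.rpow_le_rpow hn0.le hle (by norm_num)
        _ = β / s := by
            rw [← Real.rpow_mul (by linarith)]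
            norm_num
    rw [Real.rpow_neg hn0.le, ← div_eq_mul_inv, le_div_iff₀ (by positivity)]
    rw [le_div_iff₀ hs] at h2
    linarith
  · have hn1 : 1 ≤ ⌊(β/s)^(4/3 : ℝ)⌋₊ := Nat.le_floor (by exact_mod_cast hx1)
    have hn1' : (1:ℝ) ≤ (⌊(β/s)^(4/3 : ℝ)⌋₊ : ℝ) := by exact_mod_cast hn1
    have := Nat.lt_floor_add_one ((β/s)^(4/3 : ℝ))
    linarith

/-- Upper bound for the percolation probability. -/
theorem theta_upper : ∃ C : ℝ, 0 < C ∧ ∀ p : unitInterval, (1/2 : ℝ) < p →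
    theta p ≤ C * ((p:ℝ) - 1/2)^(5/36 : ℝ) := by
  obtain ⟨κ, β, hκ, hβ, hst⟩ := armS
  obtain ⟨cc, C, hcc, hC, harm⟩ := Pool.Agent.W424.NC.arm_crit
  refine ⟨3 * (C * ((2:ℝ)^(5/48 : ℝ) * β^(-(5/36) : ℝ))) + β^(-(5/36) : ℝ), by positivity, ?_⟩
  intro p hp
  obtain ⟨s, hs⟩ : ∃ s : ℝ, s = (p:ℝ) - 1/2 := ⟨_, rfl⟩
  have hs0 : 0 < s := by rw [hs]; linarith
  rw [← hs]
  have hse : 0 < s^(5/36 : ℝ) := Real.rpow_pos_of_pos hs0 _
  have hb36 : 0 < β^(-(5/36) : ℝ) := Real.rpow_pos_of_pos hβ _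
  rcases lt_or_ge β s with hbs | hbs
  · have h2 : β^(5/36 : ℝ) ≤ s^(5/36 : ℝ) := Real.rpow_le_rpow hβ.le hbs.le (by norm_num)
    have h3 : 1 ≤ β^(-(5/36) : ℝ) * s^(5/36 : ℝ) := by
      rw [Real.rpow_neg hβ.le, ← div_eq_inv_mul, le_div_iff₀ (Real.rpow_pos_of_pos hβ _), one_mul]
      exact h2
    calc theta p ≤ 1 := H31K.theta_le_one p
      _ ≤ β^(-(5/36) : ℝ) * s^(5/36 : ℝ) := h3
      _ ≤ _ := by
          apply mul_le_mul_of_nonneg_right _ hse.le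
          have : 0 < 3 * (C * ((2:ℝ)^(5/48 : ℝ) * β^(-(5/36) : ℝ))) := by positivity
          linarith
  · obtain ⟨n, hn1, hwin, hnx, hxn⟩ := scale_exists hβ hs0 hbs
    have hn0 : (0:ℝ) < n := by exact_mod_cast hn1
    have hwin' : |(p:ℝ) - 1/2| ≤ β * (n:ℝ)^(-(3/4 : ℝ)) := by
      rw [← hs, abs_of_pos hs0]
      exact hwin
    obtain ⟨-, h5, -⟩ := hst n hn1 p hwin'
    have h6 := (harm n hn1).2
    have hx0 : 0 < (β/s)^(4/3 : ℝ) := by positivity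
    have h7 : (n:ℝ)^(-(5/48) : ℝ) ≤ (2:ℝ)^(5/48 : ℝ) * β^(-(5/36) : ℝ) * s^(5/36 : ℝ) := by
      calc (n:ℝ)^(-(5/48) : ℝ) ≤ ((β/s)^(4/3 : ℝ)/2)^(-(5/48) : ℝ) :=
            Real.rpow_le_rpow_of_nonpos (by positivity) (by linarith) (by norm_num)
        _ = (2:ℝ)^(5/48 : ℝ) * ((β/s)^(4/3 : ℝ))^(-(5/48) : ℝ) := by
            rw [Real.div_rpow hx0.le (by norm_num), Real.rpow_neg (by norm_num : (0:ℝ) ≤ 2),
              div_inv_eq_mul, mul_comm]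
        _ = (2:ℝ)^(5/48 : ℝ) * (β/s)^(-(5/36) : ℝ) := by
            rw [← Real.rpow_mul (by positivity)]
            norm_num
        _ = (2:ℝ)^(5/48 : ℝ) * β^(-(5/36) : ℝ) * s^(5/36 : ℝ) := by
            rw [Real.div_rpow hβ.le hs0.le, Real.rpow_neg hs0.le, div_inv_eq_mul, mul_assoc]
    calc theta p ≤ arm p n := theta_le_arm p n
      _ ≤ 3 * arm (1/2) n := h5
      _ ≤ 3 * (C * (n:ℝ)^(-(5/48) : ℝ)) := by linarith
      _ ≤ 3 * (C * ((2:ℝ)^(5/48 : ℝ) * β^(-(5/36) : ℝ) * s^(5/36 : ℝ))) := by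
          have := mul_le_mul_of_nonneg_left h7 hC.le
          linarith
      _ = (3 * (C * ((2:ℝ)^(5/48 : ℝ) * β^(-(5/36) : ℝ)))) * s^(5/36 : ℝ) := by ring
      _ ≤ _ := by
          apply mul_le_mul_of_nonneg_right _ hse.le
          linarith

/-- Lower bound for the percolation probability. -/
theorem theta_lower' : ∃ c : ℝ, 0 < c ∧ ∀ p : unitInterval, (1/2 : ℝ) < p →
    c * ((p:ℝ) - 1/2)^(5/36 : ℝ) ≤ theta p := by
  obtain ⟨E, hE, hfar⟩ := farS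
  obtain ⟨cc, C, hcc, hC, harm⟩ := Pool.Agent.W424.NC.arm_crit
  refine ⟨1/2 * (cc * (2 * (E + 3))^(-(5/48) : ℝ)), by positivity, ?_⟩
  intro p hp
  obtain ⟨s, hs⟩ : ∃ s : ℝ, s = (p:ℝ) - 1/2 := ⟨_, rfl⟩
  have hs0 : 0 < s := by rw [hs]; linarith
  have hs1 : s ≤ 1 := by
    have := p.2.2
    rw [hs]; linarith
  obtain ⟨x, hx⟩ : ∃ x : ℝ, x = s^(-(4/3) : ℝ) := ⟨_, rfl⟩
  have hx1 : 1 ≤ x := by
    rw [hx]
    exact Real.one_le_rpow_of_pos_of_le_one_of_nonpos hs0 hs1 (by norm_num)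
  obtain ⟨N, hN⟩ : ∃ N : ℕ, N = ⌈E * x⌉₊ + 2 := ⟨_, rfl⟩
  have hNx : E * x ≤ N := by
    have := Nat.le_ceil (E * x)
    rw [hN]; push_cast
    linarith
  have hNle : (N:ℝ) ≤ (E + 3) * x := by
    have := Nat.ceil_lt_add_one (a := E * x) (by positivity)
    rw [hN]; push_cast
    nlinarith
  have hN2 : 2 ≤ N := by omega
  have hfar' : eps p N ≤ 1/100 := by
    apply hfar p hp p.2.2
    rw [← hs, ← hx]
    exact hNx
  have h5 : 1/2 * arm p (2 * N) ≤ theta p :=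
    le_theta p (fun m => arm_chain p.2.1 p.2.2 hN2 hfar' m)
  have h6 : arm (1/2) (2 * N) ≤ arm p (2 * N) :=
    arm_mono_param (by norm_num) hp.le p.2.2 _
  have h7 := (harm (2 * N) (by omega)).1
  have hN0 : (0:ℝ) < ((2 * N : ℕ) : ℝ) := by exact_mod_cast (by omega : 0 < 2 * N)
  have h9 : (2 * (E + 3))^(-(5/48) : ℝ) * s^(5/36 : ℝ) ≤ ((2 * N : ℕ) : ℝ)^(-(5/48) : ℝ) := by
    have h11 : ((2 * N : ℕ) : ℝ) ≤ (2 * (E + 3)) * x := by push_cast; linarith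
    calc (2 * (E + 3))^(-(5/48) : ℝ) * s^(5/36 : ℝ)
        = (2 * (E + 3))^(-(5/48) : ℝ) * x^(-(5/48) : ℝ) := by
          rw [hx, ← Real.rpow_mul hs0.le]
          norm_num
      _ = ((2 * (E + 3)) * x)^(-(5/48) : ℝ) :=
          (Real.mul_rpow (x := 2 * (E + 3)) (y := x) (by positivity) (by linarith)).symm
      _ ≤ ((2 * N : ℕ) : ℝ)^(-(5/48) : ℝ) :=
          Real.rpow_le_rpow_of_nonpos hN0 h11 (by norm_num)
  rw [← hs]
  calc 1/2 * (cc * (2 * (E + 3))^(-(5/48) : ℝ)) * s^(5/36 : ℝ)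
      = 1/2 * (cc * ((2 * (E + 3))^(-(5/48) : ℝ) * s^(5/36 : ℝ))) := by ring
    _ ≤ 1/2 * (cc * ((2 * N : ℕ) : ℝ)^(-(5/48) : ℝ)) := by
        have := mul_le_mul_of_nonneg_left h9 hcc.le
        linarith
    _ ≤ 1/2 * arm p (2 * N) := by linarith
    _ ≤ theta p := h5

/-- Lower bound for the mean cluster size below the critical point. -/
theorem sigma_lower : ∃ c : ℝ, 0 < c ∧ ∀ p : unitInterval, (p : ℝ) < 1/2 →
    ENNReal.ofReal (c * (1/2 - (p:ℝ))^(-(43/18) : ℝ)) ≤ sigma p := by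
  obtain ⟨κ, β, hκ, hβ, hst⟩ := armS
  obtain ⟨cc, C, hcc, hC, harm⟩ := Pool.Agent.W424.NC.arm_crit
  have hD : 0 < κ^4 / (36 * cc⁻¹^2) * ((1/2 : ℝ)^(43/24 : ℝ) * (1/2 : ℝ)^(43/24 : ℝ) *
      β^(43/18 : ℝ)) := by positivity
  have hE : 0 < (β / 8)^(43/18 : ℝ) := by positivity
  refine ⟨min (κ^4 / (36 * cc⁻¹^2) * ((1/2 : ℝ)^(43/24 : ℝ) * (1/2 : ℝ)^(43/24 : ℝ) *
      β^(43/18 : ℝ))) ((β / 8)^(43/18 : ℝ)), lt_min hD hE, fun p hp => ?_⟩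
  obtain ⟨s, hs⟩ : ∃ s : ℝ, s = 1/2 - (p:ℝ) := ⟨_, rfl⟩
  have hs0 : 0 < s := by rw [hs]; linarith
  rw [← hs]
  have hsp : 0 < s^(-(43/18) : ℝ) := Real.rpow_pos_of_pos hs0 _
  by_cases hsm : β / 8 ≤ s
  · refine le_trans ?_ (sigma_ge_one p)
    rw [← ENNReal.ofReal_one]
    apply ENNReal.ofReal_le_ofReal
    have h3 : (β/8)^(43/18 : ℝ) ≤ s^(43/18 : ℝ) :=
      Real.rpow_le_rpow (by positivity) hsm (by norm_num)
    calc min (κ^4 / (36 * cc⁻¹^2) * ((1/2 : ℝ)^(43/24 : ℝ) * (1/2 : ℝ)^(43/24 : ℝ) *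
          β^(43/18 : ℝ))) ((β / 8)^(43/18 : ℝ)) * s^(-(43/18) : ℝ)
        ≤ s^(43/18 : ℝ) * s^(-(43/18) : ℝ) :=
          mul_le_mul_of_nonneg_right ((min_le_right _ _).trans h3) hsp.le
      _ = 1 := by
          rw [← Real.rpow_add hs0]
          norm_num
  · push Not at hsm
    have hsb : s ≤ β := by linarith
    obtain ⟨n, hn1, hwin, hnx, hxn⟩ := scale_exists hβ hs0 hsb
    obtain ⟨x, hx⟩ : ∃ x : ℝ, x = (β/s)^(4/3 : ℝ) := ⟨_, rfl⟩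
    rw [← hx] at hnx hxn
    have hx16 : 16 ≤ x := by
      have h8 : (8:ℝ) ≤ β / s := by rw [le_div_iff₀ hs0]; linarith
      rw [hx]
      calc (16:ℝ) = ((8:ℝ))^(4/3 : ℝ) := by
            have : (8:ℝ) = (2:ℝ)^(3:ℝ) := by norm_num
            rw [this, ← Real.rpow_mul (by norm_num)]
            norm_num
        _ ≤ (β/s)^(4/3 : ℝ) := Real.rpow_le_rpow (by norm_num) h8 (by norm_num)
    have hn8 : 8 ≤ n := by
      have : (8:ℝ) ≤ n := by linarith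
      exact_mod_cast this
    obtain ⟨r, hr⟩ : ∃ r : ℕ, r = n / 4 := ⟨_, rfl⟩
    have hr1 : 1 ≤ r := by omega
    have hr4 : 4 * r ≤ n := by omega
    have hr5 : n ≤ 2 * (4 * r) := by omega
    obtain ⟨m, hm⟩ : ∃ m : ℝ, m = ((4 * r : ℕ):ℝ) := ⟨_, rfl⟩
    have hm0 : 0 < m := by rw [hm]; exact_mod_cast (by omega : 0 < 4 * r)
    have hn0 : (0:ℝ) < n := by exact_mod_cast hn1
    have hwin' : |(p:ℝ) - 1/2| ≤ β * ((4 * r : ℕ):ℝ)^(-(3/4 : ℝ)) := by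
      rw [abs_sub_comm, abs_of_pos (by linarith), ← hs]
      refine hwin.trans (mul_le_mul_of_nonneg_left ?_ hβ.le)
      exact Real.rpow_le_rpow_of_nonpos (by rw [← hm]; exact hm0) (by exact_mod_cast hr4)
        (by norm_num)
    obtain ⟨hW, -, hA⟩ := hst (4 * r) (by omega) p hwin'
    have hb' : ((4 * r : ℕ):ℝ)^(-(5/48 : ℝ)) ≤ cc⁻¹ * arm (1/2) (4 * r) := by
      have := (harm (4 * r) (by omega)).1
      rw [le_inv_mul_iff₀ hcc]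
      exact this
    have hsum := H31K.gl_sum hr1 hW hA (inv_pos.2 hcc) hb'
    refine le_trans (ENNReal.ofReal_le_ofReal ?_) (sigma_ge p (boxE (5 * r)) (boxV r))
    refine le_trans ?_ hsum
    rw [← hm]
    have e1 : (2 - 2 * (5/48) : ℝ) = 43/24 := by norm_num
    rw [e1]
    have h8 : (1/2 * (1/2 * x))^(43/24 : ℝ) ≤ m^(43/24 : ℝ) := by
      apply Real.rpow_le_rpow (by positivity) _ (by norm_num)
      have h10 : (n:ℝ) ≤ 2 * m := by rw [hm]; exact_mod_cast hr5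
      linarith
    have h9 : (1/2 * (1/2 * x))^(43/24 : ℝ) = (1/2 : ℝ)^(43/24 : ℝ) * (1/2 : ℝ)^(43/24 : ℝ) *
        (β^(43/18 : ℝ) * s^(-(43/18) : ℝ)) := by
      rw [Real.mul_rpow (by norm_num) (by positivity), Real.mul_rpow (by norm_num) (by positivity),
        hx, ← Real.rpow_mul (by positivity)]
      have e3 : (4/3 : ℝ) * (43/24) = 43/18 := by norm_num
      rw [e3, Real.div_rpow hβ.le hs0.le, Real.rpow_neg hs0.le, div_eq_mul_inv (β^(43/18 : ℝ))]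
      ring
    have hk : 0 ≤ κ^4 / (36 * cc⁻¹^2) := by positivity
    calc min (κ^4 / (36 * cc⁻¹^2) * ((1/2 : ℝ)^(43/24 : ℝ) * (1/2 : ℝ)^(43/24 : ℝ) *
          β^(43/18 : ℝ))) ((β / 8)^(43/18 : ℝ)) * s^(-(43/18) : ℝ)
        ≤ κ^4 / (36 * cc⁻¹^2) * ((1/2 : ℝ)^(43/24 : ℝ) * (1/2 : ℝ)^(43/24 : ℝ) *
          β^(43/18 : ℝ)) * s^(-(43/18) : ℝ) :=
          mul_le_mul_of_nonneg_right (min_le_left _ _) hsp.le
      _ = κ^4 / (36 * cc⁻¹^2) * (1/2 * (1/2 * x))^(43/24 : ℝ) := by rw [h9]; ring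
      _ ≤ κ^4 / (36 * cc⁻¹^2) * m^(43/24 : ℝ) := mul_le_mul_of_nonneg_left h8 hk

end Pool.Agent.Y554.NC
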