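import Pool.Agent.H31R3.Kes.SigUp
import Pool.Agent.W424.NC.TwoUp
import Pool.Agent.H160R2.CV.Defs

/-!
The number of points of the cluster of the origin in a finite set: moments and joint connection
probabilities.
-/

set_option maxHeartbeats 400000

namespace Pool.Agent.Y554.NC

open H974 H31K Finset MeasureTheory

/-- The event that all the points of `X` are in the cluster of the origin. -/
def AllIn (X : Finset Vtx) : Set (sqLattice.edgeSet → Bool) := {ω | ∀ x ∈ X, x ∈ cluster0 ω}

theorem meas_AllIn (X : Finset Vtx) : MeasurableSet (AllIn X) := by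
  have e : AllIn X = ⋂ x ∈ X, {ω | x ∈ cluster0 ω} := by
    ext ω
    simp only [AllIn, Set.mem_setOf_eq, Set.mem_iInter]
  rw [e]
  exact Finset.measurableSet_biInter _ (fun x _ => t10_meas x)

theorem AllIn_box (X : Finset Vtx) :
    AllIn X = ⋃ m : ℕ, {ω | (fun F : Finset Edg => ∀ x ∈ X, TP x F) (FF (boxE m) ω)} := by
  ext ω
  rw [Set.mem_iUnion]
  constructor
  · intro h
    have h1 : ∀ x : Vtx, ∃ m : ℕ, x ∈ X → TP x (FF (boxE m) ω) := by
      intro x
      by_cases hx : x ∈ X
      · have h2 : ω ∈ {ω | x ∈ cluster0 ω} := h x hx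
        rw [t10_union] at h2
        obtain ⟨m, hm⟩ := Set.mem_iUnion.1 h2
        exact ⟨m, fun _ => hm⟩
      · exact ⟨0, fun h3 => absurd h3 hx⟩
    choose f hf using h1
    refine ⟨X.sup f, fun x hx => ?_⟩
    have h3 := hf x hx
    refine Reach.mono ?_ h3
    rw [FF_coe, FF_coe]
    exact Set.inter_subset_inter_right _ (by exact_mod_cast boxE_mono (Finset.le_sup hx))
  · rintro ⟨m, hm⟩ x hx
    have h3 : Reach (↑(FF (boxE m) ω) : Set Edg) (0, 0) x := hm x hx
    rw [FF_coe] at h3
    exact (open_reach ω _ _).mpr (h3.mono Set.inter_subset_left)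

theorem AllIn_le {p q : unitInterval} (hpq : p ≤ q) (X : Finset Vtx) :
    bondLaw p (AllIn X) ≤ bondLaw q (AllIn X) := by
  have hmono : Monotone (fun m : ℕ => {ω : sqLattice.edgeSet → Bool |
      (fun F : Finset Edg => ∀ x ∈ X, TP x F) (FF (boxE m) ω)}) := by
    intro m m' hm ω hω x hx
    refine Reach.mono ?_ (hω x hx)
    rw [FF_coe, FF_coe]
    exact Set.inter_subset_inter_right _ (by exact_mod_cast boxE_mono hm)
  rw [AllIn_box, hmono.measure_iUnion, hmono.measure_iUnion]
  refine iSup_mono fun m => ?_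
  have hinc : IncrE (boxE m) (fun F : Finset Edg => ∀ x ∈ X, TP x F) :=
    fun F G h _ hF x hx => Reach.mono (by exact_mod_cast h) (hF x hx)
  have h1 := Pr_mono_param (okq p.2.1 p.2.2) (okq q.2.1 q.2.2)
    (fun _ : Edg => (show (p:ℝ) ≤ q from hpq)) hinc
  rw [← law_event p, ← law_event q] at h1
  exact (ENNReal.toReal_le_toReal (measure_ne_top _ _) (measure_ne_top _ _)).1 h1

/-- The number of points of `B` in the cluster of the origin. -/
noncomputable def cnt (B : Finset Vtx) (ω : sqLattice.edgeSet → Bool) : ENNReal :=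
  ∑ x ∈ B, Set.indicator {ω | x ∈ cluster0 ω} (fun _ => (1 : ENNReal)) ω

theorem meas_cnt (B : Finset Vtx) : Measurable (cnt B) := by
  unfold cnt
  exact Finset.measurable_sum _ (fun x _ => measurable_one.indicator (t10_meas x))

theorem cnt_eq_card (B : Finset Vtx) (ω : sqLattice.edgeSet → Bool) [DecidablePred (· ∈ cluster0 ω)] :
    cnt B ω = ((B.filter (· ∈ cluster0 ω)).card : ENNReal) := by
  unfold cnt
  rw [Finset.card_filter]
  push_cast
  apply Finset.sum_congr rfl
  intro x _
  rw [Set.indicator_apply]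
  rfl

theorem cnt_le_encard (B : Finset Vtx) (ω : sqLattice.edgeSet → Bool) :
    cnt B ω ≤ ((cluster0 ω).encard : ENNReal) := by
  classical
  rw [cnt_eq_card]
  have h2 : (↑(B.filter (· ∈ cluster0 ω)) : Set Vtx) ⊆ cluster0 ω := by
    intro x hx
    rw [Finset.mem_coe, Finset.mem_filter] at hx
    exact hx.2
  have h4 := Set.encard_le_encard h2
  rw [Set.encard_coe_eq_coe_finsetCard] at h4
  have h5 := ENat.toENNReal_le.mpr h4
  simpa using h5

theorem encard_le_cnt {B : Finset Vtx} {ω : sqLattice.edgeSet → Bool} (h : cluster0 ω ⊆ ↑B) :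
    ((cluster0 ω).encard : ENNReal) ≤ cnt B ω := by
  classical
  rw [cnt_eq_card]
  have h2 : cluster0 ω ⊆ (↑(B.filter (· ∈ cluster0 ω)) : Set Vtx) := by
    intro x hx
    rw [Finset.mem_coe, Finset.mem_filter]
    exact ⟨by exact_mod_cast h hx, hx⟩
  have h4 := Set.encard_le_encard h2
  rw [Set.encard_coe_eq_coe_finsetCard] at h4
  have h5 := ENat.toENNReal_le.mpr h4
  simpa using h5

theorem cnt_ne_top (B : Finset Vtx) (ω : sqLattice.edgeSet → Bool) : cnt B ω ≠ ⊤ := by
  classical
  rw [cnt_eq_card]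
  exact ENNReal.natCast_ne_top _

/-- joint moments -/
noncomputable def J (p : unitInterval) (B X : Finset Vtx) (k : ℕ) : ENNReal :=
  ∫⁻ ω, Set.indicator (AllIn X) (fun _ => (1 : ENNReal)) ω * cnt B ω ^ k ∂(bondLaw p)

theorem J_zero (p : unitInterval) (B X : Finset Vtx) : J p B X 0 = bondLaw p (AllIn X) := by
  unfold J
  simp only [pow_zero, mul_one]
  exact lintegral_indicator_one (meas_AllIn X)

theorem ind_insert (x : Vtx) (X : Finset Vtx) (ω : sqLattice.edgeSet → Bool) :
    Set.indicator (AllIn (insert x X)) (fun _ => (1 : ENNReal)) ω =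
      Set.indicator (AllIn X) (fun _ => (1 : ENNReal)) ω *
        Set.indicator {ω | x ∈ cluster0 ω} (fun _ => (1 : ENNReal)) ω := by
  classical
  by_cases h1 : ω ∈ AllIn X
  · by_cases h2 : ω ∈ {ω | x ∈ cluster0 ω}
    · have h3 : ω ∈ AllIn (insert x X) := by
        intro y hy
        rcases Finset.mem_insert.1 hy with rfl | hy
        · exact h2
        · exact h1 y hy
      rw [Set.indicator_of_mem h1, Set.indicator_of_mem h2, Set.indicator_of_mem h3, mul_one]
    · have h3 : ω ∉ AllIn (insert x X) := fun h => h2 (h x (Finset.mem_insert_self _ _))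
      rw [Set.indicator_of_notMem h2, Set.indicator_of_notMem h3, mul_zero]
  · have h3 : ω ∉ AllIn (insert x X) := fun h => h1 (fun y hy => h y (Finset.mem_insert_of_mem hy))
    rw [Set.indicator_of_notMem h1, Set.indicator_of_notMem h3, zero_mul]

theorem J_succ (p : unitInterval) (B X : Finset Vtx) (k : ℕ) :
    J p B X (k + 1) = ∑ x ∈ B, J p B (insert x X) k := by
  unfold J
  rw [← lintegral_finset_sum]
  · apply lintegral_congr
    intro ω
    rw [pow_succ, show cnt B ω ^ k * cnt B ω = cnt B ω * cnt B ω ^ k from mul_comm _ _,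
      ← mul_assoc]
    rw [← Finset.sum_mul]
    congr 1
    conv_lhs => rw [cnt, Finset.mul_sum]
    exact Finset.sum_congr rfl (fun x _ => (ind_insert x X ω).symm)
  · intro x _
    exact (measurable_one.indicator (meas_AllIn _)).mul ((meas_cnt B).pow_const k)

theorem J_le {p q : unitInterval} (hpq : p ≤ q) (B : Finset Vtx) (k : ℕ) :
    ∀ X : Finset Vtx, J p B X k ≤ J q B X k := by
  induction k with
  | zero =>
    intro X
    rw [J_zero, J_zero]
    exact AllIn_le hpq X
  | succ k ih =>
    intro X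
    rw [J_succ, J_succ]
    exact Finset.sum_le_sum (fun x _ => ih _)

theorem AllIn_origin : AllIn {(0, 0)} = Set.univ := by
  apply Set.eq_univ_of_forall
  intro ω x hx
  rw [Finset.mem_singleton] at hx
  subst hx
  exact SimpleGraph.Reachable.refl _

theorem J_origin (p : unitInterval) (B : Finset Vtx) (k : ℕ) :
    J p B {(0, 0)} k = ∫⁻ ω, cnt B ω ^ k ∂(bondLaw p) := by
  unfold J
  rw [AllIn_origin]
  simp only [Set.indicator_univ, one_mul]

/-- The cluster of the origin reaches distance `n`. -/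
def Rch (n : ℕ) : Set (sqLattice.edgeSet → Bool) :=
  {ω | ∃ w ∈ cluster0 ω, (n : ℤ) ≤ max |w.1| |w.2|}

theorem Rch_eq (n : ℕ) : Rch n = ArmE n := by
  ext ω
  rw [armE_iff]
  constructor
  · rintro ⟨v, hv, hn⟩
    have hr : Reach (opn ω) (0, 0) v := (open_reach ω _ _).mp hv
    obtain ⟨w, k1, k2, k3⟩ := first_exit (a := -n) (b := n) (c := -n) (d := n)
      (by unfold inR; simp) hr (by
        rcases le_max_iff.1 hn with h | h
        · rcases le_abs'.1 h with h | h <;> omega
        · rcases le_abs'.1 h with h | h <;> omega)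
    exact ⟨w, ⟨k1, k2⟩, k3⟩
  · rintro ⟨v, ⟨h1, h2⟩, h3⟩
    refine ⟨v, (open_reach ω _ _).mpr (h3.mono Set.inter_subset_left), ?_⟩
    rcases h2 with h | h | h | h
    · exact le_max_of_le_left (by rw [h, abs_neg]; exact le_abs_self _)
    · exact le_max_of_le_left (by rw [h]; exact le_abs_self _)
    · exact le_max_of_le_right (by rw [h, abs_neg]; exact le_abs_self _)
    · exact le_max_of_le_right (by rw [h]; exact le_abs_self _)

theorem meas_Rch (n : ℕ) : MeasurableSet (Rch n) := by
  rw [Rch_eq]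
  exact meas_event (boxE n) (Arm n)

theorem Rch_law (p : unitInterval) (n : ℕ) : bondLaw p (Rch n) = ENNReal.ofReal (arm p n) := by
  rw [Rch_eq, ← law_armE, measureReal_def, ENNReal.ofReal_toReal (measure_ne_top _ _)]

end Pool.Agent.Y554.NC
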