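import Pool.Agent.Y554.NC.Cnt
import Pool.Agent.H362P.Fin
import Pool.Agent.W424.NC.Stab

/-!
Moments of the number of points of the cluster of the origin in a box, at and below the critical
point.
-/

set_option maxHeartbeats 400000

namespace Pool.Agent.Y554.NC

open H974 H31K Finset MeasureTheory
open Pool.Agent.H160R2.CV

theorem sum_range_rpow {a : ℝ} (ha : 0 ≤ a) (ha1 : a < 1) (D : ℕ) :
    ∑ d ∈ Finset.range D, ((d : ℝ) + 1) ^ (-a) ≤ (D : ℝ) ^ (1 - a) / (1 - a) :=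
  H934E.sum_rpow ha ha1 D

theorem sum_Icc_abs (f : ℕ → ℝ) (hf : ∀ n, 0 ≤ f n) (n : ℕ) :
    ∑ k ∈ Finset.Icc (-(n:ℤ)) n, f k.natAbs ≤ 2 * ∑ d ∈ Finset.range (n + 1), f d := by
  classical
  have hsub : Finset.Icc (-(n:ℤ)) n ⊆ (Finset.range (n + 1)).image (fun d : ℕ => (d : ℤ)) ∪
      (Finset.range (n + 1)).image (fun d : ℕ => -(d : ℤ)) := by
    intro k hk
    rw [Finset.mem_Icc] at hk
    rw [Finset.mem_union, Finset.mem_image, Finset.mem_image]
    rcases le_total 0 k with h | h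
    · left
      exact ⟨k.natAbs, by rw [Finset.mem_range]; omega, by omega⟩
    · right
      exact ⟨k.natAbs, by rw [Finset.mem_range]; omega, by omega⟩
  have h0 : ∀ k : ℤ, 0 ≤ f k.natAbs := fun k => hf _
  calc ∑ k ∈ Finset.Icc (-(n:ℤ)) n, f k.natAbs
      ≤ ∑ k ∈ (Finset.range (n + 1)).image (fun d : ℕ => (d : ℤ)) ∪
          (Finset.range (n + 1)).image (fun d : ℕ => -(d : ℤ)), f k.natAbs :=
        Finset.sum_le_sum_of_subset_of_nonneg hsub (fun k _ _ => h0 k)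
    _ ≤ ∑ k ∈ (Finset.range (n + 1)).image (fun d : ℕ => (d : ℤ)), f k.natAbs +
          ∑ k ∈ (Finset.range (n + 1)).image (fun d : ℕ => -(d : ℤ)), f k.natAbs := by
        rw [← Finset.sum_union_inter]
        have : 0 ≤ ∑ k ∈ (Finset.range (n + 1)).image (fun d : ℕ => (d : ℤ)) ∩
          (Finset.range (n + 1)).image (fun d : ℕ => -(d : ℤ)), f k.natAbs :=
          Finset.sum_nonneg (fun k _ => h0 k)
        linarith
    _ = 2 * ∑ d ∈ Finset.range (n + 1), f d := by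
        rw [Finset.sum_image (fun a _ b _ h => by simpa using h),
          Finset.sum_image (fun a _ b _ h => by simpa using h)]
        simp only [Int.natAbs_natCast, Int.natAbs_neg]
        ring

/-- Sum of a power of the distance over a box. -/
theorem sum_bx {a : ℝ} (ha : 0 ≤ a) (ha1 : a < 1) {n : ℕ} (hn : 1 ≤ n) :
    ∑ z ∈ bx n, ((nv z : ℝ) + 1) ^ (-a) ≤ 12 / (1 - a) * (n : ℝ) ^ (2 - a) := by
  have h1a : 0 < 1 - a := by linarith
  have hnr : (1:ℝ) ≤ n := by exact_mod_cast hn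
  have h1 : ∀ z : Vtx, ((nv z : ℝ) + 1) ^ (-a) ≤ ((z.1.natAbs : ℝ) + 1) ^ (-a) := by
    intro z
    apply Real.rpow_le_rpow_of_nonpos (by positivity) _ (by linarith)
    have : z.1.natAbs ≤ nv z := le_max_left _ _
    have : (z.1.natAbs : ℝ) ≤ nv z := by exact_mod_cast this
    linarith
  have h2 := sum_Icc_abs (fun d => ((d : ℝ) + 1) ^ (-a)) (fun d => by positivity) n
  have h3 := sum_range_rpow ha ha1 (n + 1)
  have h4 : (((n + 1 : ℕ)) : ℝ) ^ (1 - a) ≤ 2 * (n : ℝ) ^ (1 - a) := by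
    calc (((n + 1 : ℕ)) : ℝ) ^ (1 - a) ≤ (2 * (n:ℝ)) ^ (1 - a) := by
          apply Real.rpow_le_rpow (by positivity) _ h1a.le
          push_cast; linarith
      _ = (2:ℝ) ^ (1 - a) * (n : ℝ) ^ (1 - a) := Real.mul_rpow (by norm_num) (by linarith)
      _ ≤ 2 * (n : ℝ) ^ (1 - a) := by
          apply mul_le_mul_of_nonneg_right _ (by positivity)
          calc (2:ℝ) ^ (1 - a) ≤ (2:ℝ) ^ (1:ℝ) :=
                Real.rpow_le_rpow_of_exponent_le (by norm_num) (by linarith)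
            _ = 2 := Real.rpow_one 2
  calc ∑ z ∈ bx n, ((nv z : ℝ) + 1) ^ (-a)
      ≤ ∑ z ∈ bx n, ((z.1.natAbs : ℝ) + 1) ^ (-a) := Finset.sum_le_sum (fun z _ => h1 z)
    _ = ∑ k ∈ Finset.Icc (-(n:ℤ)) n, ∑ l ∈ Finset.Icc (-(n:ℤ)) n,
          ((k.natAbs : ℝ) + 1) ^ (-a) := by
        unfold bx
        rw [Finset.sum_product]
    _ = (2 * n + 1) * ∑ k ∈ Finset.Icc (-(n:ℤ)) n, ((k.natAbs : ℝ) + 1) ^ (-a) := by
        rw [Finset.mul_sum]
        apply Finset.sum_congr rfl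
        intro k _
        rw [Finset.sum_const, nsmul_eq_mul, Int.card_Icc]
        have e : ((n:ℤ) + 1 - -(n:ℤ)).toNat = 2 * n + 1 := by omega
        rw [e]
        push_cast
        ring
    _ ≤ (3 * n) * (2 * ((2 * (n : ℝ) ^ (1 - a)) / (1 - a))) := by
        have h5 : ∑ k ∈ Finset.Icc (-(n:ℤ)) n, ((k.natAbs : ℝ) + 1) ^ (-a) ≤
            2 * ((2 * (n : ℝ) ^ (1 - a)) / (1 - a)) := by
          refine h2.trans (mul_le_mul_of_nonneg_left (h3.trans ?_) (by norm_num))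
          exact div_le_div_of_nonneg_right h4 h1a.le
        exact mul_le_mul (by linarith) h5 (Finset.sum_nonneg (fun k _ => by positivity))
          (by positivity)
    _ = 12 / (1 - a) * ((n:ℝ) ^ (1:ℝ) * (n : ℝ) ^ (1 - a)) := by
        rw [Real.rpow_one]; ring
    _ = 12 / (1 - a) * (n : ℝ) ^ (2 - a) := by
        rw [← Real.rpow_add (by linarith)]
        congr 2
        ring

theorem nv_sub_le {x y : Vtx} {R : ℕ} (hx : x ∈ bx R) (hy : y ∈ bx R) : x - y ∈ bx (2 * R) := by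
  unfold bx at *
  rw [Finset.mem_product, Finset.mem_Icc, Finset.mem_Icc] at *
  simp only [Prod.fst_sub, Prod.snd_sub]
  push_cast
  omega

theorem sum_shift {a : ℝ} (ha : 0 ≤ a) (ha1 : a < 1) {R : ℕ} (hR : 1 ≤ R) {y : Vtx}
    (hy : y ∈ bx R) :
    ∑ x ∈ bx R, ((H362P.sd x y : ℝ) + 1) ^ (-a) ≤ 48 / (1 - a) * (R : ℝ) ^ (2 - a) := by
  classical
  have h1a : 0 < 1 - a := by linarith
  have h1 : ∑ x ∈ bx R, ((H362P.sd x y : ℝ) + 1) ^ (-a) =
      ∑ z ∈ (bx R).image (fun x => x - y), ((nv z : ℝ) + 1) ^ (-a) := by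
    rw [Finset.sum_image (fun a _ b _ h => by simpa using h)]
    rfl
  rw [h1]
  calc ∑ z ∈ (bx R).image (fun x => x - y), ((nv z : ℝ) + 1) ^ (-a)
      ≤ ∑ z ∈ bx (2 * R), ((nv z : ℝ) + 1) ^ (-a) := by
        apply Finset.sum_le_sum_of_subset_of_nonneg
        · intro z hz
          obtain ⟨x, hx, rfl⟩ := Finset.mem_image.1 hz
          exact nv_sub_le hx hy
        · intro z _ _; positivity
    _ ≤ 12 / (1 - a) * ((2 * R : ℕ) : ℝ) ^ (2 - a) := sum_bx ha ha1 (by omega)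
    _ ≤ 12 / (1 - a) * (4 * (R : ℝ) ^ (2 - a)) := by
        apply mul_le_mul_of_nonneg_left _ (by positivity)
        push_cast
        rw [Real.mul_rpow (by norm_num) (by positivity)]
        apply mul_le_mul_of_nonneg_right _ (by positivity)
        calc (2:ℝ) ^ (2 - a) ≤ (2:ℝ) ^ (2:ℝ) :=
              Real.rpow_le_rpow_of_exponent_le (by norm_num) (by linarith)
          _ = 4 := by norm_num
    _ = 48 / (1 - a) * (R : ℝ) ^ (2 - a) := by ring

/-- Adding a point: uniform bound. -/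
theorem add_bound : ∃ C : ℝ, 1 ≤ C ∧ ∀ X : Finset Vtx, X.Nonempty → ∀ x : Vtx,
    H362P.PX (insert x X) ≤
      (∑ y ∈ X, C * ((H362P.sd x y : ℝ) + 1) ^ (-(5/48) : ℝ)) * H362P.PX X := by
  classical
  obtain ⟨c, C, hc, hC, h⟩ := H362P.add_point Pool.Agent.H160R2.SA.arSharp
  refine ⟨max 1 (2 * C), le_max_left _ _, fun X hX x => ?_⟩
  have hP := H362P.PX_nonneg X
  have hnn : ∀ y : Vtx, 0 ≤ max 1 (2 * C) * ((H362P.sd x y : ℝ) + 1) ^ (-(5/48) : ℝ) :=
    fun y => by positivity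
  by_cases hx : x ∈ X
  · rw [Finset.insert_eq_of_mem hx]
    have h1 : 1 ≤ ∑ y ∈ X, max 1 (2 * C) * ((H362P.sd x y : ℝ) + 1) ^ (-(5/48) : ℝ) := by
      calc (1:ℝ) ≤ max 1 (2 * C) * ((H362P.sd x x : ℝ) + 1) ^ (-(5/48) : ℝ) := by
            have : H362P.sd x x = 0 := by simp [H362P.sd]
            rw [this]
            simp
        _ ≤ _ := Finset.single_le_sum (f := fun y =>
            max 1 (2 * C) * ((H362P.sd x y : ℝ) + 1) ^ (-(5/48) : ℝ)) (fun y _ => hnn y) hx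
    nlinarith
  · obtain ⟨y0, hy0, hmin⟩ := Finset.exists_min_image X (fun y => H362P.sd x y) hX
    obtain ⟨D, hD⟩ : ∃ D, H362P.Diam X D := by
      obtain ⟨pr, hpr, hmax⟩ := Finset.exists_max_image (X ×ˢ X)
        (fun pr : Vtx × Vtx => H362P.sd pr.1 pr.2) (hX.product hX)
      rw [Finset.mem_product] at hpr
      refine ⟨H362P.sd pr.1 pr.2, ⟨pr.1, hpr.1, pr.2, hpr.2, rfl⟩, ?_⟩
      rintro d ⟨u, hu, v, hv, rfl⟩
      exact hmax (u, v) (Finset.mem_product.2 ⟨hu, hv⟩)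
    have hnear : H362P.Near x X (H362P.sd x y0) := by
      refine ⟨⟨y0, hy0, rfl⟩, ?_⟩
      rintro d ⟨u, hu, rfl⟩
      exact hmin u hu
    have h1 := (h X x _ D hx hnear hD).2
    have hne : x ≠ y0 := fun e => hx (e ▸ hy0)
    have ha1 : 1 ≤ H362P.sd x y0 := H362P.sd_pos hne
    have har : (1:ℝ) ≤ (H362P.sd x y0 : ℝ) := by exact_mod_cast ha1
    have h2 : H362P.fac (H362P.sd x y0) D ≤ (H362P.sd x y0 : ℝ) ^ (-(5/48) : ℝ) := by
      unfold H362P.fac
      apply Real.rpow_le_rpow_of_nonpos (by positivity) _ (by norm_num)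
      have : (1:ℝ) ≤ max 1 ((H362P.sd x y0 : ℝ) / (max D 1 : ℕ)) := le_max_left _ _
      nlinarith
    have h3 : (H362P.sd x y0 : ℝ) ^ (-(5/48) : ℝ) ≤
        2 * ((H362P.sd x y0 : ℝ) + 1) ^ (-(5/48) : ℝ) := by
      calc (H362P.sd x y0 : ℝ) ^ (-(5/48) : ℝ)
          ≤ (((H362P.sd x y0 : ℝ) + 1) / 2) ^ (-(5/48) : ℝ) :=
            Real.rpow_le_rpow_of_nonpos (by positivity) (by linarith) (by norm_num)
        _ = (2:ℝ) ^ (5/48 : ℝ) * ((H362P.sd x y0 : ℝ) + 1) ^ (-(5/48) : ℝ) := by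
            rw [Real.div_rpow (by positivity) (by norm_num),
              Real.rpow_neg (by norm_num : (0:ℝ) ≤ 2), div_inv_eq_mul, mul_comm]
        _ ≤ 2 * ((H362P.sd x y0 : ℝ) + 1) ^ (-(5/48) : ℝ) := by
            apply mul_le_mul_of_nonneg_right _ (by positivity)
            calc (2:ℝ) ^ (5/48 : ℝ) ≤ (2:ℝ) ^ (1:ℝ) :=
                  Real.rpow_le_rpow_of_exponent_le (by norm_num) (by norm_num)
              _ = 2 := Real.rpow_one 2
    refine h1.trans (mul_le_mul_of_nonneg_right ?_ hP)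
    calc C * H362P.fac (H362P.sd x y0) D
        ≤ C * (2 * ((H362P.sd x y0 : ℝ) + 1) ^ (-(5/48) : ℝ)) :=
          mul_le_mul_of_nonneg_left (h2.trans h3) hC.le
      _ = (2 * C) * ((H362P.sd x y0 : ℝ) + 1) ^ (-(5/48) : ℝ) := by ring
      _ ≤ max 1 (2 * C) * ((H362P.sd x y0 : ℝ) + 1) ^ (-(5/48) : ℝ) :=
          mul_le_mul_of_nonneg_right (le_max_right _ _) (by positivity)
      _ ≤ _ := Finset.single_le_sum (f := fun y =>
            max 1 (2 * C) * ((H362P.sd x y : ℝ) + 1) ^ (-(5/48) : ℝ)) (fun y _ => hnn y) hy0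

theorem add_sum : ∃ C : ℝ, 1 ≤ C ∧ ∀ R : ℕ, 1 ≤ R → ∀ X : Finset Vtx, X.Nonempty → X ⊆ bx R →
    ∑ x ∈ bx R, H362P.PX (insert x X) ≤
      C * (R:ℝ) ^ (91/48 : ℝ) * X.card * H362P.PX X := by
  classical
  obtain ⟨C, hC, h⟩ := add_bound
  refine ⟨C * (48 / (1 - 5/48)), by nlinarith, fun R hR X hX hsub => ?_⟩
  have hP := H362P.PX_nonneg X
  calc ∑ x ∈ bx R, H362P.PX (insert x X)
      ≤ ∑ x ∈ bx R, (∑ y ∈ X, C * ((H362P.sd x y : ℝ) + 1) ^ (-(5/48) : ℝ)) * H362P.PX X :=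
        Finset.sum_le_sum (fun x _ => h X hX x)
    _ = (∑ y ∈ X, C * ∑ x ∈ bx R, ((H362P.sd x y : ℝ) + 1) ^ (-(5/48) : ℝ)) * H362P.PX X := by
        rw [← Finset.sum_mul, Finset.sum_comm]
        congr 1
        apply Finset.sum_congr rfl
        intro y _
        rw [Finset.mul_sum]
    _ ≤ (∑ y ∈ X, C * (48 / (1 - 5/48) * (R : ℝ) ^ (2 - 5/48 : ℝ))) * H362P.PX X := by
        apply mul_le_mul_of_nonneg_right _ hP
        apply Finset.sum_le_sum
        intro y hy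
        exact mul_le_mul_of_nonneg_left (sum_shift (by norm_num) (by norm_num) hR (hsub hy))
          (by linarith)
    _ = C * (48 / (1 - 5/48)) * (R:ℝ) ^ (91/48 : ℝ) * X.card * H362P.PX X := by
        rw [Finset.sum_const, nsmul_eq_mul]
        have : (2 - 5/48 : ℝ) = 91/48 := by norm_num
        rw [this]
        ring

theorem AllIn_PX {X : Finset Vtx} (h0 : ((0, 0) : Vtx) ∈ X) :
    bondLaw hlf (AllIn X) = ENNReal.ofReal (H362P.PX X) := by
  have e : AllIn X = {ω : sqLattice.edgeSet → Bool | H362P.Cn X (opn ω)} := by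
    ext ω
    constructor
    · intro h u hu v hv
      have h1 : Reach (opn ω) (0, 0) u := (open_reach ω _ _).mp (h u hu)
      have h2 : Reach (opn ω) (0, 0) v := (open_reach ω _ _).mp (h v hv)
      exact h1.symm.trans h2
    · intro h x hx
      exact (open_reach ω _ _).mpr (h _ h0 x hx)
  rw [e]
  unfold H362P.PX
  rw [measureReal_def, ENNReal.ofReal_toReal (measure_ne_top _ _)]

/-- Joint moments at the critical point. -/
theorem J_bound : ∃ C : ℝ, 1 ≤ C ∧ ∀ R : ℕ, 1 ≤ R → ∀ k : ℕ, ∀ X : Finset Vtx,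
    ((0, 0) : Vtx) ∈ X → X ⊆ bx R →
    J hlf (bx R) X k ≤
      ENNReal.ofReal ((C * (R:ℝ) ^ (91/48 : ℝ) * (X.card + k)) ^ k * H362P.PX X) := by
  classical
  obtain ⟨C, hC, h⟩ := add_sum
  refine ⟨C, hC, fun R hR k => ?_⟩
  have hA : 0 ≤ C * (R:ℝ) ^ (91/48 : ℝ) := by positivity
  induction k with
  | zero =>
    intro X h0 hX
    rw [J_zero, AllIn_PX h0]
    simp
  | succ k ih =>
    intro X h0 hX
    rw [J_succ]
    have h1 : ∀ x ∈ bx R, J hlf (bx R) (insert x X) k ≤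
        ENNReal.ofReal ((C * (R:ℝ) ^ (91/48 : ℝ) * (X.card + (k + 1 : ℕ))) ^ k *
          H362P.PX (insert x X)) := by
      intro x hx
      refine (ih (insert x X) (Finset.mem_insert_of_mem h0)
        (Finset.insert_subset hx hX)).trans (ENNReal.ofReal_le_ofReal ?_)
      apply mul_le_mul_of_nonneg_right _ (H362P.PX_nonneg _)
      apply pow_le_pow_left₀ (by positivity)
      apply mul_le_mul_of_nonneg_left _ hA
      have : ((insert x X).card : ℝ) ≤ X.card + 1 := by exact_mod_cast Finset.card_insert_le x X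
      push_cast
      linarith
    refine (Finset.sum_le_sum h1).trans ?_
    rw [← ENNReal.ofReal_sum_of_nonneg
      (fun x _ => mul_nonneg (by positivity) (H362P.PX_nonneg _))]
    apply ENNReal.ofReal_le_ofReal
    rw [← Finset.mul_sum]
    have h2 := h R hR X ⟨_, h0⟩ hX
    have hP := H362P.PX_nonneg X
    calc (C * (R:ℝ) ^ (91/48 : ℝ) * (X.card + (k + 1 : ℕ))) ^ k *
          ∑ x ∈ bx R, H362P.PX (insert x X)
        ≤ (C * (R:ℝ) ^ (91/48 : ℝ) * (X.card + (k + 1 : ℕ))) ^ k *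
          (C * (R:ℝ) ^ (91/48 : ℝ) * X.card * H362P.PX X) :=
          mul_le_mul_of_nonneg_left h2 (by positivity)
      _ ≤ (C * (R:ℝ) ^ (91/48 : ℝ) * (X.card + (k + 1 : ℕ))) ^ k *
          (C * (R:ℝ) ^ (91/48 : ℝ) * (X.card + (k + 1 : ℕ)) * H362P.PX X) := by
          apply mul_le_mul_of_nonneg_left _ (by positivity)
          apply mul_le_mul_of_nonneg_right _ hP
          apply mul_le_mul_of_nonneg_left _ hA
          have : (0:ℝ) ≤ ((k + 1 : ℕ) : ℝ) := Nat.cast_nonneg _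
          linarith
      _ = (C * (R:ℝ) ^ (91/48 : ℝ) * (X.card + (k + 1 : ℕ))) ^ (k + 1) * H362P.PX X := by
          rw [pow_succ]; ring

theorem origin_mem (R : ℕ) : ((0, 0) : Vtx) ∈ bx R := by
  unfold bx
  rw [Finset.mem_product, Finset.mem_Icc]
  simp

/-- Moments of the number of points of the cluster of the origin in a box. -/
theorem cnt_moment (k : ℕ) : ∃ C : ℝ, 1 ≤ C ∧ ∀ p : unitInterval, (p:ℝ) ≤ 1/2 →
    ∀ R : ℕ, 1 ≤ R →
    ∫⁻ ω, cnt (bx R) ω ^ (k + 1) ∂(bondLaw p) ≤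
      ENNReal.ofReal (C * (R:ℝ) ^ ((91 * ((k + 1 : ℕ):ℝ) - 5) / 48 : ℝ)) := by
  classical
  obtain ⟨C, hC, hJ⟩ := J_bound
  obtain ⟨c2, C2, hc2, hC2, h2⟩ := H362P.two_point Pool.Agent.H160R2.SA.arSharp
  have hK : 0 < (1 - 5/24 : ℝ) := by norm_num
  refine ⟨max 1 ((C * (2 + k)) ^ k * (max 1 (2 * C2) * (12 / (1 - 5/24)))), le_max_left _ _, ?_⟩
  intro p hp R hR
  have hRr : (1:ℝ) ≤ R := by exact_mod_cast hR
  have hpq : p ≤ hlf := by
    show (p:ℝ) ≤ (hlf : ℝ)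
    exact hp
  rw [← J_origin]
  refine (J_le hpq (bx R) (k + 1) {(0, 0)}).trans ?_
  rw [J_succ]
  have h3 : ∀ x : Vtx, H362P.PX (insert x {(0, 0)}) ≤
      max 1 (2 * C2) * ((nv x : ℝ) + 1) ^ (-(5/24) : ℝ) := by
    intro x
    by_cases hx : x = (0, 0)
    · subst hx
      rw [Finset.insert_eq_of_mem (Finset.mem_singleton_self _), H362P.PX_singleton]
      have : nv ((0, 0) : Vtx) = 0 := by simp [nv]
      rw [this]
      simp
    · have h4 := (h2 x (0, 0) hx).2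
      have e : H362P.sd x (0, 0) = nv x := by
        unfold H362P.sd nv
        simp
      rw [e] at h4
      have hpos : 1 ≤ nv x := by rw [← e]; exact H362P.sd_pos hx
      have hpr : (1:ℝ) ≤ nv x := by exact_mod_cast hpos
      have h5 : (nv x : ℝ) ^ (-(5/24) : ℝ) ≤ 2 * ((nv x : ℝ) + 1) ^ (-(5/24) : ℝ) := by
        calc (nv x : ℝ) ^ (-(5/24) : ℝ)
            ≤ (((nv x : ℝ) + 1) / 2) ^ (-(5/24) : ℝ) :=
              Real.rpow_le_rpow_of_nonpos (by positivity) (by linarith) (by norm_num)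
          _ = (2:ℝ) ^ (5/24 : ℝ) * ((nv x : ℝ) + 1) ^ (-(5/24) : ℝ) := by
              rw [Real.div_rpow (by positivity) (by norm_num),
                Real.rpow_neg (by norm_num : (0:ℝ) ≤ 2), div_inv_eq_mul, mul_comm]
          _ ≤ 2 * ((nv x : ℝ) + 1) ^ (-(5/24) : ℝ) := by
              apply mul_le_mul_of_nonneg_right _ (by positivity)
              calc (2:ℝ) ^ (5/24 : ℝ) ≤ (2:ℝ) ^ (1:ℝ) :=
                    Real.rpow_le_rpow_of_exponent_le (by norm_num) (by norm_num)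
                _ = 2 := Real.rpow_one 2
      calc H362P.PX {x, (0, 0)} ≤ C2 * (nv x : ℝ) ^ (-(5/24) : ℝ) := h4
        _ ≤ C2 * (2 * ((nv x : ℝ) + 1) ^ (-(5/24) : ℝ)) := mul_le_mul_of_nonneg_left h5 hC2.le
        _ = (2 * C2) * ((nv x : ℝ) + 1) ^ (-(5/24) : ℝ) := by ring
        _ ≤ _ := mul_le_mul_of_nonneg_right (le_max_right _ _) (by positivity)
  have h4 : ∀ x ∈ bx R, J hlf (bx R) (insert x {(0, 0)}) k ≤
      ENNReal.ofReal ((C * (R:ℝ) ^ (91/48 : ℝ) * (2 + k)) ^ k *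
        (max 1 (2 * C2) * ((nv x : ℝ) + 1) ^ (-(5/24) : ℝ))) := by
    intro x hx
    refine (hJ R hR k (insert x {(0, 0)}) (Finset.mem_insert_of_mem (Finset.mem_singleton_self _))
      (Finset.insert_subset hx (Finset.singleton_subset_iff.2 (origin_mem R)))).trans
      (ENNReal.ofReal_le_ofReal ?_)
    apply mul_le_mul _ (h3 x) (H362P.PX_nonneg _) (by positivity)
    apply pow_le_pow_left₀ (by positivity)
    apply mul_le_mul_of_nonneg_left _ (by positivity)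
    have : ((insert x {((0, 0) : Vtx)} : Finset Vtx).card : ℝ) ≤ 2 := by
      exact_mod_cast Finset.card_insert_le x {((0, 0) : Vtx)}
    linarith
  refine (Finset.sum_le_sum h4).trans ?_
  rw [← ENNReal.ofReal_sum_of_nonneg (fun x _ => by positivity)]
  apply ENNReal.ofReal_le_ofReal
  rw [← Finset.mul_sum, ← Finset.mul_sum]
  have h5 := sum_bx (a := 5/24) (by norm_num) (by norm_num) hR
  have hR0 : (0:ℝ) < R := by linarith
  calc (C * (R:ℝ) ^ (91/48 : ℝ) * (2 + k)) ^ k *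
        (max 1 (2 * C2) * ∑ x ∈ bx R, ((nv x : ℝ) + 1) ^ (-(5/24) : ℝ))
      ≤ (C * (R:ℝ) ^ (91/48 : ℝ) * (2 + k)) ^ k *
        (max 1 (2 * C2) * (12 / (1 - 5/24) * (R : ℝ) ^ (2 - 5/24 : ℝ))) := by
        apply mul_le_mul_of_nonneg_left _ (by positivity)
        exact mul_le_mul_of_nonneg_left h5 (by positivity)
    _ = ((C * (2 + k)) ^ k * (max 1 (2 * C2) * (12 / (1 - 5/24)))) *
        (((R:ℝ) ^ (91/48 : ℝ)) ^ k * (R : ℝ) ^ (2 - 5/24 : ℝ)) := by
        rw [mul_pow, mul_pow, mul_pow]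
        ring
    _ = ((C * (2 + k)) ^ k * (max 1 (2 * C2) * (12 / (1 - 5/24)))) *
        (R:ℝ) ^ ((91 * ((k + 1 : ℕ):ℝ) - 5) / 48 : ℝ) := by
        congr 1
        rw [← Real.rpow_natCast, ← Real.rpow_mul hR0.le, ← Real.rpow_add hR0]
        congr 1
        push_cast
        ring
    _ ≤ _ := by
        apply mul_le_mul_of_nonneg_right (le_max_right _ _) (by positivity)

end Pool.Agent.Y554.NC
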