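import Pool.Agent.Y554.NC.Mom
import Pool.Agent.W424.NC.ArmUp
import Pool.Agent.W424.NC.TwoLow

/-!
Moments of the cluster size and the volume law, at and below the critical point.
-/

set_option maxHeartbeats 400000

namespace Pool.Agent.Y554.NC

open H974 H31K Finset MeasureTheory Pool.Agent.W424.NC
open Pool.Agent.H160R2.CV

theorem mem_bx' {x : Vtx} {n : ℕ} : x ∈ bx n ↔ nv x ≤ n := by
  unfold bx nv
  rw [Finset.mem_product, Finset.mem_Icc, Finset.mem_Icc]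
  omega

theorem mem_Rch {n : ℕ} {ω : sqLattice.edgeSet → Bool} :
    ω ∈ Rch n ↔ ∃ w ∈ cluster0 ω, n ≤ nv w := by
  have e : ∀ w : Vtx, ((n : ℤ) ≤ max |w.1| |w.2| ↔ n ≤ nv w) := by
    intro w
    unfold nv
    rw [Int.abs_eq_natAbs, Int.abs_eq_natAbs]
    omega
  unfold Rch
  simp only [Set.mem_setOf_eq, e]

theorem origin_in (ω : sqLattice.edgeSet → Bool) : ((0, 0) : Vtx) ∈ cluster0 ω :=
  SimpleGraph.Reachable.refl _

theorem one_le_cnt (R : ℕ) (ω : sqLattice.edgeSet → Bool) : 1 ≤ cnt (bx R) ω := by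
  classical
  unfold cnt
  have h := Finset.single_le_sum (s := bx R)
    (f := fun x => Set.indicator {ω | x ∈ cluster0 ω} (fun _ => (1 : ENNReal)) ω)
    (fun x _ => bot_le) (origin_mem R)
  refine le_trans ?_ h
  have h2 : ω ∈ {ω | ((0, 0) : Vtx) ∈ cluster0 ω} := origin_in ω
  simp only [Set.indicator_of_mem h2, le_refl]

/-- Decomposition according to the radius of the cluster. -/
theorem pow_le_tsum (k : ℕ) {L : ℕ} (hL : 1 ≤ L) (ω : sqLattice.edgeSet → Bool) :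
    ((cluster0 ω).encard : ENNReal) ^ k ≤
      ∑' i : ℕ, cnt (bx ((i + 1) * L)) ω ^ k *
        Set.indicator (Rch (i * L)) (fun _ => (1 : ENNReal)) ω := by
  classical
  by_cases hfin : (cluster0 ω).Finite
  · obtain ⟨w, hw, hmax⟩ := Set.exists_max_image (cluster0 ω) nv hfin ⟨_, origin_in ω⟩
    have h1 : cluster0 ω ⊆ ↑(bx ((nv w / L + 1) * L)) := by
      intro x hx
      rw [Finset.mem_coe, mem_bx']
      have h2 := hmax x hx
      have h3 : nv w < (nv w / L + 1) * L := by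
        have h4 := Nat.div_add_mod (nv w) L
        have h5 := Nat.mod_lt (nv w) (show L > 0 by omega)
        rw [add_mul, one_mul, mul_comm (nv w / L) L]
        omega
      omega
    have h2 : ω ∈ Rch (nv w / L * L) := mem_Rch.2 ⟨w, hw, Nat.div_mul_le_self _ _⟩
    refine le_trans ?_ (ENNReal.le_tsum (nv w / L))
    rw [Set.indicator_of_mem h2, mul_one]
    exact pow_le_pow_left' (encard_le_cnt h1) k
  · have hinf : (cluster0 ω).Infinite := hfin
    have h1 : ∀ i : ℕ, (1 : ENNReal) ≤ cnt (bx ((i + 1) * L)) ω ^ k *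
        Set.indicator (Rch (i * L)) (fun _ => (1 : ENNReal)) ω := by
      intro i
      have h2 : ω ∈ Rch (i * L) := by
        rw [Rch_eq]
        exact (infinite_iff ω).1 hinf _
      rw [Set.indicator_of_mem h2, mul_one]
      exact one_le_pow_of_one_le' (one_le_cnt _ ω) k
    have h2 : ∑' _ : ℕ, (1 : ENNReal) = ⊤ := ENNReal.tsum_const_eq_top_of_ne_zero one_ne_zero
    have h3 := ENNReal.tsum_le_tsum h1
    rw [h2, top_le_iff] at h3
    rw [h3]
    exact le_top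

/-- Young's inequality with an event. -/
theorem young {u : ENNReal} (hu : u ≠ ⊤) {l : ℝ} (hl : 0 < l) :
    u ≤ ENNReal.ofReal l * u ^ 2 + ENNReal.ofReal l⁻¹ := by
  obtain ⟨v, rfl⟩ : ∃ v : NNReal, u = v := ⟨u.toNNReal, (ENNReal.coe_toNNReal hu).symm⟩
  have h1 : (v : ENNReal) = ENNReal.ofReal (v:ℝ) := (ENNReal.ofReal_coe_nnreal).symm
  rw [h1, ← ENNReal.ofReal_pow (NNReal.coe_nonneg v), ← ENNReal.ofReal_mul hl.le,
    ← ENNReal.ofReal_add (by positivity) (by positivity)]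
  apply ENNReal.ofReal_le_ofReal
  have h2 : 0 ≤ (l * v - 1)^2 / l := by positivity
  have h3 : (l * v - 1)^2 / l = l * (v:ℝ)^2 - 2 * v + l⁻¹ := by
    field_simp
    ring
  have h4 : (0:ℝ) ≤ v := v.2
  linarith

theorem young_ind {B : Finset Vtx} {A : Set (sqLattice.edgeSet → Bool)} (k : ℕ) {l : ℝ}
    (hl : 0 < l) (ω : sqLattice.edgeSet → Bool) :
    cnt B ω ^ k * Set.indicator A (fun _ => (1 : ENNReal)) ω ≤
      ENNReal.ofReal l * cnt B ω ^ (2 * k) +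
        ENNReal.ofReal l⁻¹ * Set.indicator A (fun _ => (1 : ENNReal)) ω := by
  classical
  by_cases h : ω ∈ A
  · rw [Set.indicator_of_mem h, mul_one, mul_one, mul_comm 2 k, pow_mul]
    exact young (ENNReal.pow_ne_top (cnt_ne_top B ω)) hl
  · rw [Set.indicator_of_notMem h, mul_zero]
    exact bot_le

theorem int_young {p : unitInterval} {B : Finset Vtx} {A : Set (sqLattice.edgeSet → Bool)}
    (hA : MeasurableSet A) (k : ℕ) {l : ℝ} (hl : 0 < l) :
    ∫⁻ ω, cnt B ω ^ k * Set.indicator A (fun _ => (1 : ENNReal)) ω ∂(bondLaw p) ≤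
      ENNReal.ofReal l * ∫⁻ ω, cnt B ω ^ (2 * k) ∂(bondLaw p) +
        ENNReal.ofReal l⁻¹ * bondLaw p A := by
  refine (lintegral_mono (fun ω => young_ind k hl ω)).trans (le_of_eq ?_)
  rw [lintegral_add_left (((meas_cnt B).pow_const _).const_mul _),
    lintegral_const_mul _ ((meas_cnt B).pow_const _),
    lintegral_const_mul _ (measurable_const.indicator hA)]
  congr 2
  exact lintegral_indicator_one hA

/-- The contribution of a range of radii. -/
theorem term_bound (k : ℕ) : ∃ c C : ℝ, 0 < c ∧ 0 < C ∧ ∀ p : unitInterval, (p:ℝ) ≤ 1/2 →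
    ∀ L : ℕ, 1 ≤ L → 1 ≤ (L:ℝ) * (1/2 - (p:ℝ))^(4/3 : ℝ) → ∀ i : ℕ,
    ∫⁻ ω, cnt (bx ((i + 1) * L)) ω ^ (k + 1) *
        Set.indicator (Rch (i * L)) (fun _ => (1 : ENNReal)) ω ∂(bondLaw p) ≤
      ENNReal.ofReal (C * (L:ℝ)^((91 * ((k + 1 : ℕ):ℝ) - 5) / 48 : ℝ) *
        (((i:ℝ) + 1) ^ (2 * (k + 1)) * Real.exp (-c) ^ i)) := by
  obtain ⟨C1, hC1, h1⟩ := cnt_moment k
  obtain ⟨C2, hC2, h2⟩ := cnt_moment (2 * k + 1)
  obtain ⟨c, C3, hc, hC3, h3⟩ := arm_upper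
  refine ⟨c / 2, C1 + C2 + 2 * C3, by positivity, by positivity, ?_⟩
  intro p hp L hL hLt i
  obtain ⟨t, ht⟩ : ∃ t : ℝ, t = (1/2 - (p:ℝ))^(4/3 : ℝ) := ⟨_, rfl⟩
  rw [← ht] at hLt
  have ht0 : 0 ≤ t := by
    rw [ht]; apply Real.rpow_nonneg; linarith
  have hLr : (1:ℝ) ≤ L := by exact_mod_cast hL
  have hL0 : (0:ℝ) < L := by linarith
  obtain ⟨e, he⟩ : ∃ e : ℝ, e = (91 * ((k + 1 : ℕ):ℝ) - 5) / 48 := ⟨_, rfl⟩
  have he0 : 0 ≤ e := by
    rw [he]; push_cast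
    have : (0:ℝ) ≤ k := Nat.cast_nonneg k
    linarith
  have he2 : e ≤ ((2 * (k + 1) : ℕ) : ℝ) := by
    rw [he]; push_cast
    have : (0:ℝ) ≤ k := Nat.cast_nonneg k
    linarith
  rw [← he]
  have hi1 : (1:ℝ) ≤ (i:ℝ) + 1 := by
    have : (0:ℝ) ≤ i := Nat.cast_nonneg i
    linarith
  have hipow : ((i:ℝ) + 1)^e ≤ ((i:ℝ) + 1)^(2 * (k + 1)) := by
    rw [← Real.rpow_natCast]
    exact Real.rpow_le_rpow_of_exponent_le hi1 he2
  rcases Nat.eq_zero_or_pos i with hi | hi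
  · subst hi
    have h4 : ∫⁻ ω, cnt (bx ((0 + 1) * L)) ω ^ (k + 1) *
        Set.indicator (Rch (0 * L)) (fun _ => (1 : ENNReal)) ω ∂(bondLaw p) ≤
        ∫⁻ ω, cnt (bx L) ω ^ (k + 1) ∂(bondLaw p) := by
      apply lintegral_mono
      intro ω
      rw [show (0 + 1) * L = L by ring]
      calc cnt (bx L) ω ^ (k + 1) * Set.indicator (Rch (0 * L)) (fun _ => (1 : ENNReal)) ω
          ≤ cnt (bx L) ω ^ (k + 1) * 1 := by
            apply mul_le_mul_right
            exact Set.indicator_le_self' (fun _ _ => bot_le) ω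
        _ = _ := mul_one _
    refine h4.trans ((h1 p hp L hL).trans (ENNReal.ofReal_le_ofReal ?_))
    rw [← he]
    have h5 : (1:ℝ) ≤ ((0:ℕ):ℝ) + 1 := by norm_num
    have h6 : (((0:ℕ):ℝ) + 1) ^ (2 * (k + 1)) * Real.exp (-(c/2)) ^ 0 = 1 := by simp
    rw [h6, mul_one]
    apply mul_le_mul_of_nonneg_right _ (by positivity)
    linarith
  · have hir : (1:ℝ) ≤ i := by exact_mod_cast hi
    obtain ⟨R, hR⟩ : ∃ R : ℕ, R = (i + 1) * L := ⟨_, rfl⟩
    rw [← hR]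
    have hR1 : 1 ≤ R := by rw [hR]; exact Nat.mul_pos (by omega) hL
    have hRr : (R:ℝ) = ((i:ℝ) + 1) * L := by rw [hR]; push_cast; ring
    have hR0 : (0:ℝ) < R := by exact_mod_cast hR1
    have hiL : 1 ≤ i * L := Nat.mul_pos hi hL
    obtain ⟨E, hE⟩ : ∃ E : ℝ, E = Real.exp (-(c/2)) ^ i := ⟨_, rfl⟩
    have hE0 : 0 < E := by rw [hE]; positivity
    have hEe : Real.exp (-(c * (((i * L : ℕ):ℝ) * t))) ≤ E * E := by
      rw [hE, ← Real.exp_nat_mul, ← Real.exp_add]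
      apply Real.exp_le_exp.2
      push_cast
      have : (i:ℝ) ≤ (i:ℝ) * (L * t) := le_mul_of_one_le_right (by positivity) hLt
      have : c * i ≤ c * (i * (L * t)) := mul_le_mul_of_nonneg_left this hc.le
      nlinarith
    have hl : 0 < (R:ℝ)^(-(91 * ((k + 1 : ℕ):ℝ) / 48) : ℝ) * E := by positivity
    refine (int_young (meas_Rch (i * L)) (k + 1) hl).trans ?_
    have h4 := h2 p hp R hR1
    have h5 := h3 p p.2.1 hp (i * L) hiL
    rw [← ht] at h5
    have h6 : 2 * (k + 1) = 2 * k + 1 + 1 := by ring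
    rw [h6, Rch_law]
    calc ENNReal.ofReal ((R:ℝ)^(-(91 * ((k + 1 : ℕ):ℝ) / 48) : ℝ) * E) *
          ∫⁻ ω, cnt (bx R) ω ^ (2 * k + 1 + 1) ∂(bondLaw p) +
          ENNReal.ofReal ((R:ℝ)^(-(91 * ((k + 1 : ℕ):ℝ) / 48) : ℝ) * E)⁻¹ *
            ENNReal.ofReal (arm p (i * L))
        ≤ ENNReal.ofReal ((R:ℝ)^(-(91 * ((k + 1 : ℕ):ℝ) / 48) : ℝ) * E) *
            ENNReal.ofReal (C2 * (R:ℝ) ^ ((91 * ((2 * k + 1 + 1 : ℕ):ℝ) - 5) / 48 : ℝ)) +
          ENNReal.ofReal ((R:ℝ)^(-(91 * ((k + 1 : ℕ):ℝ) / 48) : ℝ) * E)⁻¹ *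
            ENNReal.ofReal (C3 * ((i * L : ℕ):ℝ)^(-(5/48) : ℝ) *
              Real.exp (-(c * (((i * L : ℕ):ℝ) * t)))) := by
          apply add_le_add
          · exact mul_le_mul_right h4 _
          · exact mul_le_mul_right (ENNReal.ofReal_le_ofReal h5) _
      _ = ENNReal.ofReal ((R:ℝ)^(-(91 * ((k + 1 : ℕ):ℝ) / 48) : ℝ) * E *
            (C2 * (R:ℝ) ^ ((91 * ((2 * k + 1 + 1 : ℕ):ℝ) - 5) / 48 : ℝ)) +
          ((R:ℝ)^(-(91 * ((k + 1 : ℕ):ℝ) / 48) : ℝ) * E)⁻¹ *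
            (C3 * ((i * L : ℕ):ℝ)^(-(5/48) : ℝ) *
              Real.exp (-(c * (((i * L : ℕ):ℝ) * t))))) := by
          rw [← ENNReal.ofReal_mul hl.le, ← ENNReal.ofReal_mul (by positivity),
            ← ENNReal.ofReal_add (by positivity) (by positivity)]
      _ ≤ _ := by
          apply ENNReal.ofReal_le_ofReal
          -- the two terms are of order `R ^ e * E`
          have k1 : (R:ℝ)^(-(91 * ((k + 1 : ℕ):ℝ) / 48) : ℝ) * E *
              (C2 * (R:ℝ) ^ ((91 * ((2 * k + 1 + 1 : ℕ):ℝ) - 5) / 48 : ℝ)) =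
              C2 * ((R:ℝ)^e * E) := by
            have e1 : (R:ℝ)^e = (R:ℝ)^(-(91 * ((k + 1 : ℕ):ℝ) / 48) : ℝ) *
                (R:ℝ) ^ ((91 * ((2 * k + 1 + 1 : ℕ):ℝ) - 5) / 48 : ℝ) := by
              rw [← Real.rpow_add hR0]
              congr 1
              rw [he]
              push_cast
              ring
            rw [e1]
            ring
          have k2 : ((R:ℝ)^(-(91 * ((k + 1 : ℕ):ℝ) / 48) : ℝ) * E)⁻¹ *
              (C3 * ((i * L : ℕ):ℝ)^(-(5/48) : ℝ) *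
              Real.exp (-(c * (((i * L : ℕ):ℝ) * t)))) ≤ 2 * C3 * ((R:ℝ)^e * E) := by
            have e2 : ((i * L : ℕ):ℝ)^(-(5/48) : ℝ) ≤ 2 * (R:ℝ)^(-(5/48) : ℝ) := by
              have e3 : (R:ℝ) / 2 ≤ ((i * L : ℕ):ℝ) := by
                rw [hRr]; push_cast
                nlinarith
              calc ((i * L : ℕ):ℝ)^(-(5/48) : ℝ) ≤ ((R:ℝ) / 2)^(-(5/48) : ℝ) :=
                    Real.rpow_le_rpow_of_nonpos (by positivity) e3 (by norm_num)
                _ = (2:ℝ) ^ (5/48 : ℝ) * (R:ℝ)^(-(5/48) : ℝ) := by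
                    rw [Real.div_rpow hR0.le (by norm_num),
                      Real.rpow_neg (by norm_num : (0:ℝ) ≤ 2), div_inv_eq_mul, mul_comm]
                _ ≤ 2 * (R:ℝ)^(-(5/48) : ℝ) := by
                    apply mul_le_mul_of_nonneg_right _ (by positivity)
                    calc (2:ℝ) ^ (5/48 : ℝ) ≤ (2:ℝ) ^ (1:ℝ) :=
                          Real.rpow_le_rpow_of_exponent_le (by norm_num) (by norm_num)
                      _ = 2 := Real.rpow_one 2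
            have e4 : (R:ℝ)^e = (R:ℝ)^(91 * ((k + 1 : ℕ):ℝ) / 48 : ℝ) * (R:ℝ)^(-(5/48) : ℝ) := by
              rw [← Real.rpow_add hR0]
              congr 1
              rw [he]
              ring
            have e5 : ((R:ℝ)^(-(91 * ((k + 1 : ℕ):ℝ) / 48) : ℝ) * E)⁻¹ =
                (R:ℝ)^(91 * ((k + 1 : ℕ):ℝ) / 48 : ℝ) * E⁻¹ := by
              rw [mul_inv, ← Real.rpow_neg hR0.le, neg_neg]
            rw [e4, e5]
            have e6 : ((i * L : ℕ):ℝ)^(-(5/48) : ℝ) * Real.exp (-(c * (((i * L : ℕ):ℝ) * t))) ≤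
                (2 * (R:ℝ)^(-(5/48) : ℝ)) * (E * E) :=
              mul_le_mul e2 hEe (Real.exp_pos _).le (by positivity)
            calc (R:ℝ)^(91 * ((k + 1 : ℕ):ℝ) / 48 : ℝ) * E⁻¹ *
                  (C3 * ((i * L : ℕ):ℝ)^(-(5/48) : ℝ) *
                    Real.exp (-(c * (((i * L : ℕ):ℝ) * t))))
                = (R:ℝ)^(91 * ((k + 1 : ℕ):ℝ) / 48 : ℝ) * E⁻¹ * C3 *
                  (((i * L : ℕ):ℝ)^(-(5/48) : ℝ) *
                    Real.exp (-(c * (((i * L : ℕ):ℝ) * t)))) := by ring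
              _ ≤ (R:ℝ)^(91 * ((k + 1 : ℕ):ℝ) / 48 : ℝ) * E⁻¹ * C3 *
                  ((2 * (R:ℝ)^(-(5/48) : ℝ)) * (E * E)) :=
                  mul_le_mul_of_nonneg_left e6 (by positivity)
              _ = 2 * C3 * ((R:ℝ)^(91 * ((k + 1 : ℕ):ℝ) / 48 : ℝ) * (R:ℝ)^(-(5/48) : ℝ) * E) *
                  (E⁻¹ * E) := by ring
              _ = _ := by rw [inv_mul_cancel₀ hE0.ne', mul_one]
          have k3 : (R:ℝ)^e ≤ (L:ℝ)^e * ((i:ℝ) + 1) ^ (2 * (k + 1)) := by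
            rw [hRr, Real.mul_rpow (by positivity) hL0.le, mul_comm]
            exact mul_le_mul_of_nonneg_left hipow (by positivity)
          rw [k1]
          rw [← hE]
          calc C2 * ((R:ℝ)^e * E) + ((R:ℝ)^(-(91 * ((k + 1 : ℕ):ℝ) / 48) : ℝ) * E)⁻¹ *
              (C3 * ((i * L : ℕ):ℝ)^(-(5/48) : ℝ) *
              Real.exp (-(c * (((i * L : ℕ):ℝ) * t))))
              ≤ C2 * ((R:ℝ)^e * E) + 2 * C3 * ((R:ℝ)^e * E) := by linarith
            _ = (C2 + 2 * C3) * ((R:ℝ)^e * E) := by ring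
            _ ≤ (C1 + C2 + 2 * C3) * ((R:ℝ)^e * E) := by
                apply mul_le_mul_of_nonneg_right _ (by positivity)
                linarith
            _ ≤ (C1 + C2 + 2 * C3) * ((L:ℝ)^e * ((i:ℝ) + 1) ^ (2 * (k + 1)) * E) := by
                apply mul_le_mul_of_nonneg_left _ (by positivity)
                exact mul_le_mul_of_nonneg_right k3 hE0.le
            _ = _ := by ring

theorem scale_ceil {t : ℝ} (ht : 0 < t) (ht1 : t ≤ 1) : ∃ L : ℕ, 1 ≤ L ∧ 1 ≤ (L:ℝ) * t ∧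
    (L:ℝ) * t ≤ 2 := by
  refine ⟨⌈1/t⌉₊, Nat.one_le_iff_ne_zero.2 (Nat.ceil_pos.2 (by positivity)).ne', ?_, ?_⟩
  · have := Nat.le_ceil (1/t)
    rw [div_le_iff₀ ht] at this
    exact this
  · have h1 := Nat.ceil_lt_add_one (a := 1/t) (by positivity)
    have h2 : ((⌈1/t⌉₊ : ℕ) : ℝ) * t ≤ (1/t + 1) * t := mul_le_mul_of_nonneg_right h1.le ht.le
    have h3 : (1/t + 1) * t = 1 + t := by field_simp
    linarith

/-- Upper bound for the moments of the cluster size below the critical point. -/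
theorem mom_upper (k : ℕ) : ∃ C : ℝ, 0 < C ∧ ∀ p : unitInterval, (p:ℝ) < 1/2 →
    ∫⁻ ω, ((cluster0 ω).encard : ENNReal) ^ (k + 1) ∂(bondLaw p) ≤
      ENNReal.ofReal (C * (1/2 - (p:ℝ))^(-((91 * ((k + 1 : ℕ):ℝ) - 5) / 36) : ℝ)) := by
  obtain ⟨c, C, hc, hC, h⟩ := term_bound k
  have hr0 : 0 < Real.exp (-c) := Real.exp_pos _
  have hr1 : Real.exp (-c) < 1 := by
    rw [Real.exp_lt_one_iff]
    linarith
  have hsum : Summable (fun i : ℕ => (((i:ℝ) + 1) ^ (2 * (k + 1)) * Real.exp (-c) ^ i)) := by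
    have h1 := summable_pow_mul_geometric_of_norm_lt_one (R := ℝ) (2 * (k + 1))
      (r := Real.exp (-c)) (by rw [Real.norm_eq_abs, abs_of_pos hr0]; exact hr1)
    have h2 := ((summable_nat_add_iff 1).2 h1).mul_left (Real.exp (-c))⁻¹
    refine h2.congr (fun i => ?_)
    push_cast
    rw [pow_succ (Real.exp (-c)) i]
    field_simp
  obtain ⟨S, hS⟩ : ∃ S : ℝ, S = ∑' i : ℕ, (((i:ℝ) + 1) ^ (2 * (k + 1)) * Real.exp (-c) ^ i) :=
    ⟨_, rfl⟩
  have hS0 : 0 ≤ S := by rw [hS]; exact tsum_nonneg (fun i => by positivity)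
  obtain ⟨e, he⟩ : ∃ e : ℝ, e = (91 * ((k + 1 : ℕ):ℝ) - 5) / 48 := ⟨_, rfl⟩
  have he0 : 0 ≤ e := by
    rw [he]; push_cast
    have : (0:ℝ) ≤ k := Nat.cast_nonneg k
    linarith
  refine ⟨C * (2:ℝ)^e * (S + 1), by positivity, fun p hp => ?_⟩
  obtain ⟨s, hs⟩ : ∃ s : ℝ, s = 1/2 - (p:ℝ) := ⟨_, rfl⟩
  have hs0 : 0 < s := by rw [hs]; linarith
  have hs1 : s ≤ 1 := by have := p.2.1; rw [hs]; linarith
  obtain ⟨t, ht⟩ : ∃ t : ℝ, t = s^(4/3 : ℝ) := ⟨_, rfl⟩
  have ht0 : 0 < t := by rw [ht]; positivity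
  have ht1 : t ≤ 1 := by rw [ht]; exact Real.rpow_le_one hs0.le hs1 (by norm_num)
  obtain ⟨L, hL, hLt, hLt2⟩ := scale_ceil ht0 ht1
  have h1 : ∀ i : ℕ, _ := h p hp.le L hL (by rw [← hs, ← ht]; exact hLt)
  calc ∫⁻ ω, ((cluster0 ω).encard : ENNReal) ^ (k + 1) ∂(bondLaw p)
      ≤ ∫⁻ ω, ∑' i : ℕ, cnt (bx ((i + 1) * L)) ω ^ (k + 1) *
        Set.indicator (Rch (i * L)) (fun _ => (1 : ENNReal)) ω ∂(bondLaw p) :=
        lintegral_mono (fun ω => pow_le_tsum (k + 1) hL ω)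
    _ = ∑' i : ℕ, ∫⁻ ω, cnt (bx ((i + 1) * L)) ω ^ (k + 1) *
        Set.indicator (Rch (i * L)) (fun _ => (1 : ENNReal)) ω ∂(bondLaw p) := by
        rw [lintegral_tsum]
        intro i
        exact (((meas_cnt _).pow_const _).mul
          (measurable_one.indicator (meas_Rch _))).aemeasurable
    _ ≤ ∑' i : ℕ, ENNReal.ofReal (C * (L:ℝ)^e *
        (((i:ℝ) + 1) ^ (2 * (k + 1)) * Real.exp (-c) ^ i)) := by
        rw [he]
        exact ENNReal.tsum_le_tsum h1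
    _ = ENNReal.ofReal (C * (L:ℝ)^e * S) := by
        rw [← ENNReal.ofReal_tsum_of_nonneg (fun i => by positivity) (hsum.mul_left _),
          tsum_mul_left, hS]
    _ ≤ _ := by
        apply ENNReal.ofReal_le_ofReal
        have h3 : (L:ℝ)^e ≤ (2:ℝ)^e * s^(-((91 * ((k + 1 : ℕ):ℝ) - 5) / 36) : ℝ) := by
          have h4 : (L:ℝ) ≤ 2 / t := by rw [le_div_iff₀ ht0]; exact hLt2
          calc (L:ℝ)^e ≤ (2 / t)^e := Real.rpow_le_rpow (Nat.cast_nonneg _) h4 he0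
            _ = (2:ℝ)^e * t^(-e) := by
                rw [Real.div_rpow (by norm_num) ht0.le, Real.rpow_neg ht0.le, div_eq_mul_inv]
            _ = (2:ℝ)^e * s^(-((91 * ((k + 1 : ℕ):ℝ) - 5) / 36) : ℝ) := by
                rw [ht, ← Real.rpow_mul hs0.le, he]
                congr 2
                ring
        rw [← hs]
        calc C * (L:ℝ)^e * S
            ≤ C * ((2:ℝ)^e * s^(-((91 * ((k + 1 : ℕ):ℝ) - 5) / 36) : ℝ)) * (S + 1) := by
              apply mul_le_mul _ (by linarith) hS0 (by positivity)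
              exact mul_le_mul_of_nonneg_left h3 hC.le
          _ = _ := by ring

end Pool.Agent.Y554.NC
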