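import Pool.Agent.Y554.NC.SubA

/-!
The volume law at and below the critical point; lower bounds for the moments.
-/

set_option maxHeartbeats 400000

namespace Pool.Agent.Y554.NC

open H974 H31K Finset MeasureTheory Pool.Agent.W424.NC
open Pool.Agent.H160R2.CV

/-- The annulus. -/
noncomputable def an (n : ℕ) : Finset Vtx := bx (2 * n) \ bx n

theorem mem_an {n : ℕ} {x : Vtx} : x ∈ an n ↔ n < nv x ∧ nv x ≤ 2 * n := by
  unfold an
  rw [Finset.mem_sdiff, mem_bx', mem_bx']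
  omega

theorem card_bx (n : ℕ) : (bx n).card = (2 * n + 1) ^ 2 := by
  unfold bx
  rw [Finset.card_product, Int.card_Icc]
  have e : Int.toNat ((n:ℤ) + 1 - -n) = 2 * n + 1 := by omega
  rw [e]
  ring

theorem card_an (n : ℕ) : n ^ 2 ≤ (an n).card := by
  have h1 : bx n ⊆ bx (2 * n) := by
    intro x hx
    rw [mem_bx'] at hx ⊢
    omega
  unfold an
  rw [Finset.card_sdiff_of_subset h1, card_bx, card_bx]
  have : n ^ 2 + (2 * n + 1) ^ 2 ≤ (2 * (2 * n) + 1) ^ 2 := by ring_nf; nlinarith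
  omega

theorem nrm_eq_nv (x : Vtx) : nrm x = nv x := rfl

theorem int_cnt (p : unitInterval) (B : Finset Vtx) :
    ∫⁻ ω, cnt B ω ∂(bondLaw p) = ENNReal.ofReal (∑ x ∈ B, tau p x) := by
  unfold cnt
  rw [lintegral_finset_sum]
  · have h0 : ∀ x ∈ B, 0 ≤ tau p x := fun x _ => by unfold tau; exact measureReal_nonneg
    rw [ENNReal.ofReal_sum_of_nonneg h0]
    apply Finset.sum_congr rfl
    intro x _
    have h2 : ∫⁻ ω, Set.indicator {ω | x ∈ cluster0 ω} (fun _ => (1 : ENNReal)) ω ∂(bondLaw p) =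
        (bondLaw p) {ω | x ∈ cluster0 ω} := lintegral_indicator_one (t10_meas x)
    rw [h2]
    unfold tau
    rw [measureReal_def, ENNReal.ofReal_toReal (measure_ne_top _ _)]
  · intro x _
    exact measurable_one.indicator (t10_meas x)

/-- First moment in an annulus. -/
theorem mass_lower : ∃ c : ℝ, 0 < c ∧ ∀ p : unitInterval, (1/4:ℝ) ≤ p → (p:ℝ) ≤ 1/2 →
    ∀ n : ℕ, 1 ≤ n → (n:ℝ) * (1/2 - (p:ℝ))^(4/3 : ℝ) ≤ 2 →
    c * (n:ℝ)^(43/24 : ℝ) ≤ ∑ x ∈ an n, tau p x := by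
  obtain ⟨c, C, hc, hC, h⟩ := tau_lower
  refine ⟨c * (3:ℝ)^(-(5/24) : ℝ) * Real.exp (-(C * 4)), by positivity, ?_⟩
  intro p hp hp1 n hn hnt
  have hnr : (1:ℝ) ≤ n := by exact_mod_cast hn
  have hn0 : (0:ℝ) < n := by linarith
  obtain ⟨t, ht⟩ : ∃ t : ℝ, t = (1/2 - (p:ℝ))^(4/3 : ℝ) := ⟨_, rfl⟩
  rw [← ht] at hnt
  have ht0 : 0 ≤ t := by
    rw [ht]; apply Real.rpow_nonneg; linarith
  have h1 : ∀ x ∈ an n, c * (3:ℝ)^(-(5/24) : ℝ) * Real.exp (-(C * 4)) * (n:ℝ)^(-(5/24) : ℝ) ≤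
      tau p x := by
    intro x hx
    rw [mem_an] at hx
    have h2 := h p hp hp1 x
    rw [← ht, nrm_eq_nv] at h2
    have h3 : (nv x : ℝ) ≤ 2 * n := by exact_mod_cast hx.2
    refine le_trans ?_ h2
    have h4 : (3:ℝ)^(-(5/24) : ℝ) * (n:ℝ)^(-(5/24) : ℝ) ≤ ((nv x : ℝ) + 1)^(-(5/24) : ℝ) := by
      rw [← Real.mul_rpow (by norm_num) hn0.le]
      apply Real.rpow_le_rpow_of_nonpos (by positivity) _ (by norm_num)
      linarith
    have h5 : Real.exp (-(C * 4)) ≤ Real.exp (-(C * ((nv x : ℝ) * t))) := by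
      apply Real.exp_le_exp.2
      have : (nv x : ℝ) * t ≤ 4 := by
        calc (nv x : ℝ) * t ≤ 2 * n * t := mul_le_mul_of_nonneg_right h3 ht0
          _ ≤ 4 := by linarith
      have := mul_le_mul_of_nonneg_left this hC.le
      linarith
    calc c * (3:ℝ)^(-(5/24) : ℝ) * Real.exp (-(C * 4)) * (n:ℝ)^(-(5/24) : ℝ)
        = c * ((3:ℝ)^(-(5/24) : ℝ) * (n:ℝ)^(-(5/24) : ℝ)) * Real.exp (-(C * 4)) := by ring
      _ ≤ c * ((nv x : ℝ) + 1)^(-(5/24) : ℝ) * Real.exp (-(C * ((nv x : ℝ) * t))) := by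
          apply mul_le_mul (mul_le_mul_of_nonneg_left h4 hc.le) h5 (Real.exp_pos _).le
            (by positivity)
  have h2 : ((n:ℝ)^(2:ℝ)) ≤ ((an n).card : ℝ) := by
    have : ((n^2 : ℕ) : ℝ) ≤ ((an n).card : ℝ) := by exact_mod_cast card_an n
    rw [show (2:ℝ) = ((2:ℕ):ℝ) by norm_num, Real.rpow_natCast]
    exact_mod_cast card_an n
  calc c * (3:ℝ)^(-(5/24) : ℝ) * Real.exp (-(C * 4)) * (n:ℝ)^(43/24 : ℝ)
      = (n:ℝ)^(2:ℝ) * (c * (3:ℝ)^(-(5/24) : ℝ) * Real.exp (-(C * 4)) * (n:ℝ)^(-(5/24) : ℝ)) := by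
        have : (n:ℝ)^(43/24 : ℝ) = (n:ℝ)^(2:ℝ) * (n:ℝ)^(-(5/24) : ℝ) := by
          rw [← Real.rpow_add hn0]
          norm_num
        rw [this]
        ring
    _ ≤ ((an n).card : ℝ) * (c * (3:ℝ)^(-(5/24) : ℝ) * Real.exp (-(C * 4)) *
          (n:ℝ)^(-(5/24) : ℝ)) := mul_le_mul_of_nonneg_right h2 (by positivity)
    _ = ∑ x ∈ an n, c * (3:ℝ)^(-(5/24) : ℝ) * Real.exp (-(C * 4)) * (n:ℝ)^(-(5/24) : ℝ) := by
        rw [Finset.sum_const, nsmul_eq_mul]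
    _ ≤ _ := Finset.sum_le_sum h1

/-- The event that the cluster of the origin has at least `v` points. -/
def Big (v : ENNReal) : Set (sqLattice.edgeSet → Bool) :=
  {ω | v ≤ ((cluster0 ω).encard : ENNReal)}

theorem cnt_mono {A B : Finset Vtx} (h : A ⊆ B) (ω : sqLattice.edgeSet → Bool) :
    cnt A ω ≤ cnt B ω := by
  unfold cnt
  exact Finset.sum_le_sum_of_subset h

/-- Lower bound for the probability of a large cluster, at the scale `n`. -/
theorem vol_low : ∃ c : ℝ, 0 < c ∧ ∀ p : unitInterval, (1/4:ℝ) ≤ p → (p:ℝ) ≤ 1/2 →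
    ∀ n : ℕ, 1 ≤ n → (n:ℝ) * (1/2 - (p:ℝ))^(4/3 : ℝ) ≤ 2 →
    ENNReal.ofReal (c * (n:ℝ)^(-(5/48) : ℝ)) ≤
      bondLaw p (Big (ENNReal.ofReal (c * (n:ℝ)^(91/48 : ℝ)))) := by
  classical
  obtain ⟨c1, hc1, h1⟩ := mass_lower
  obtain ⟨C2, hC2, h2⟩ := cnt_moment 1
  obtain ⟨c3, C3, hc3, hC3, h3⟩ := arm_upper
  obtain ⟨ε1, hε1⟩ : ∃ ε : ℝ, ε = c1 / (4 * C3) := ⟨_, rfl⟩
  obtain ⟨ε2, hε2⟩ : ∃ ε : ℝ, ε = c1 / (64 * C2) := ⟨_, rfl⟩
  have hC20 : 0 < C2 := by linarith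
  have hε10 : 0 < ε1 := by rw [hε1]; positivity
  have hε20 : 0 < ε2 := by rw [hε2]; positivity
  refine ⟨min ε1 (ε2 * (c1 / 2)), by positivity, fun p hp hp1 n hn hnt => ?_⟩
  have hnr : (1:ℝ) ≤ n := by exact_mod_cast hn
  have hn0 : (0:ℝ) < n := by linarith
  obtain ⟨l, hl⟩ : ∃ l : ℝ, l = ε1 * (n:ℝ)^(91/48 : ℝ) := ⟨_, rfl⟩
  obtain ⟨μ, hμ⟩ : ∃ μ : ℝ, μ = ε2 * (n:ℝ)^(-(91/48) : ℝ) := ⟨_, rfl⟩
  have hl0 : 0 < l := by rw [hl]; positivity
  have hμ0 : 0 < μ := by rw [hμ]; positivity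
  -- the event
  obtain ⟨A, hA⟩ : ∃ A : Set (sqLattice.edgeSet → Bool), A = {ω | ENNReal.ofReal l ≤ cnt (an n) ω} :=
    ⟨_, rfl⟩
  have hAm : MeasurableSet A := by rw [hA]; exact measurableSet_le measurable_const (meas_cnt _)
  have hAsub : A ⊆ Big (ENNReal.ofReal (min ε1 (ε2 * (c1 / 2)) * (n:ℝ)^(91/48 : ℝ))) := by
    intro ω hω
    rw [hA] at hω
    have h4 : ENNReal.ofReal l ≤ cnt (an n) ω := hω
    refine le_trans (ENNReal.ofReal_le_ofReal ?_) (h4.trans (cnt_le_encard _ _))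
    rw [hl]
    exact mul_le_mul_of_nonneg_right (min_le_left _ _) (by positivity)
  -- pointwise inequality
  have key : ∀ ω, cnt (an n) ω ≤ ENNReal.ofReal l * Set.indicator (Rch n) (fun _ => (1:ENNReal)) ω +
      (ENNReal.ofReal μ * cnt (bx (2 * n)) ω ^ (1 + 1) +
        ENNReal.ofReal μ⁻¹ * Set.indicator A (fun _ => (1:ENNReal)) ω) := by
    intro ω
    by_cases hω : ω ∈ A
    · have h5 : cnt (an n) ω ≤ cnt (bx (2 * n)) ω := cnt_mono Finset.sdiff_subset ω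
      have h6 := young (cnt_ne_top (an n) ω) hμ0
      refine le_trans ?_ le_add_self
      rw [Set.indicator_of_mem hω, mul_one]
      refine h6.trans (add_le_add ?_ le_rfl)
      exact mul_le_mul_right (pow_le_pow_left' h5 2) _
    · by_cases h0 : cnt (an n) ω = 0
      · rw [h0]; exact bot_le
      · have hR : ω ∈ Rch n := by
          by_contra hR
          apply h0
          unfold cnt
          apply Finset.sum_eq_zero
          intro x hx
          apply Set.indicator_of_notMem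
          intro hx'
          exact hR (mem_Rch.2 ⟨x, hx', (mem_an.1 hx).1.le⟩)
        refine le_trans ?_ le_self_add
        rw [Set.indicator_of_mem hR, mul_one]
        rw [hA] at hω
        exact (not_le.1 hω).le
  have hint := lintegral_mono (μ := bondLaw p) key
  rw [int_cnt, lintegral_add_left ((measurable_const.indicator (meas_Rch n)).const_mul _),
    lintegral_add_left (((meas_cnt _).pow_const _).const_mul _),
    lintegral_const_mul _ (measurable_const.indicator (meas_Rch n)),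
    lintegral_const_mul _ ((meas_cnt _).pow_const _),
    lintegral_const_mul _ (measurable_const.indicator hAm)] at hint
  have i1 : ∫⁻ ω, Set.indicator (Rch n) (fun _ => (1:ENNReal)) ω ∂(bondLaw p) =
      ENNReal.ofReal (arm p n) := by
    rw [← Rch_law]
    exact lintegral_indicator_one (meas_Rch n)
  have i2 : ∫⁻ ω, Set.indicator A (fun _ => (1:ENNReal)) ω ∂(bondLaw p) =
      ENNReal.ofReal ((bondLaw p).real A) := by
    rw [measureReal_def, ENNReal.ofReal_toReal (measure_ne_top _ _)]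
    exact lintegral_indicator_one hAm
  rw [i1, i2] at hint
  have h4 := h2 p hp1 (2 * n) (by omega)
  have h5 := h1 p hp hp1 n hn hnt
  have h6 : arm p n ≤ C3 * (n:ℝ)^(-(5/48) : ℝ) := by
    refine (h3 p p.2.1 hp1 n hn).trans ?_
    apply mul_le_of_le_one_right (by positivity)
    rw [Real.exp_le_one_iff]
    have : 0 ≤ (1/2 - (p:ℝ))^(4/3 : ℝ) := by apply Real.rpow_nonneg; linarith
    have : 0 ≤ c3 * ((n:ℝ) * (1/2 - (p:ℝ))^(4/3 : ℝ)) := by positivity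
    linarith
  have hPA : 0 ≤ (bondLaw p).real A := measureReal_nonneg
  have harm0 : 0 ≤ arm p n := by
    rw [← law_armE]; exact measureReal_nonneg
  have hfin : ENNReal.ofReal (∑ x ∈ an n, tau p x) ≤ ENNReal.ofReal (l * arm p n +
      (μ * (C2 * ((2 * n : ℕ):ℝ) ^ ((91 * ((1 + 1 : ℕ):ℝ) - 5) / 48 : ℝ)) +
        μ⁻¹ * (bondLaw p).real A)) := by
    refine hint.trans ?_
    rw [ENNReal.ofReal_add (by positivity) (by positivity),
      ENNReal.ofReal_add (by positivity) (by positivity), ENNReal.ofReal_mul hl0.le,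
      ENNReal.ofReal_mul hμ0.le, ENNReal.ofReal_mul (by positivity : (0:ℝ) ≤ μ⁻¹)]
    refine add_le_add le_rfl (add_le_add ?_ le_rfl)
    exact mul_le_mul_right h4 _
  have hfin' := (ENNReal.ofReal_le_ofReal_iff (by positivity)).1 hfin
  -- numerics
  obtain ⟨M, hM⟩ : ∃ M : ℝ, M = (n:ℝ)^(43/24 : ℝ) := ⟨_, rfl⟩
  have hM0 : 0 < M := by rw [hM]; positivity
  have j1 : l * arm p n ≤ c1 / 4 * M := by
    calc l * arm p n ≤ l * (C3 * (n:ℝ)^(-(5/48) : ℝ)) := mul_le_mul_of_nonneg_left h6 hl0.le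
      _ = (ε1 * C3) * ((n:ℝ)^(91/48 : ℝ) * (n:ℝ)^(-(5/48) : ℝ)) := by rw [hl]; ring
      _ = c1 / 4 * M := by
          rw [← Real.rpow_add hn0, hM, hε1]
          have e1 : (91/48 + -(5/48) : ℝ) = 43/24 := by norm_num
          rw [e1]
          field_simp
  have j2 : μ * (C2 * ((2 * n : ℕ):ℝ) ^ ((91 * ((1 + 1 : ℕ):ℝ) - 5) / 48 : ℝ)) ≤ c1 / 4 * M := by
    have e1 : ((91 * ((1 + 1 : ℕ):ℝ) - 5) / 48 : ℝ) = 177/48 := by norm_num
    have e2 : (((2 * n : ℕ):ℝ)) ^ (177/48 : ℝ) ≤ 16 * (n:ℝ)^(177/48 : ℝ) := by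
      push_cast
      rw [Real.mul_rpow (by norm_num) hn0.le]
      apply mul_le_mul_of_nonneg_right _ (by positivity)
      calc (2:ℝ)^(177/48 : ℝ) ≤ (2:ℝ)^(4:ℝ) :=
            Real.rpow_le_rpow_of_exponent_le (by norm_num) (by norm_num)
        _ = 16 := by norm_num
    rw [e1]
    calc μ * (C2 * (((2 * n : ℕ):ℝ)) ^ (177/48 : ℝ))
        ≤ μ * (C2 * (16 * (n:ℝ)^(177/48 : ℝ))) := by
          apply mul_le_mul_of_nonneg_left _ hμ0.le
          exact mul_le_mul_of_nonneg_left e2 hC20.le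
      _ = (ε2 * C2 * 16) * ((n:ℝ)^(-(91/48) : ℝ) * (n:ℝ)^(177/48 : ℝ)) := by rw [hμ]; ring
      _ = c1 / 4 * M := by
          rw [← Real.rpow_add hn0, hM, hε2]
          have e3 : (-(91/48) + 177/48 : ℝ) = 43/24 := by norm_num
          rw [e3]
          field_simp
          ring
  have j3 : c1 * M ≤ l * arm p n +
      (μ * (C2 * ((2 * n : ℕ):ℝ) ^ ((91 * ((1 + 1 : ℕ):ℝ) - 5) / 48 : ℝ)) +
        μ⁻¹ * (bondLaw p).real A) := by
    rw [hM]
    exact h5.trans hfin'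
  have j4 : c1 / 2 * M ≤ μ⁻¹ * (bondLaw p).real A := by linarith
  have j5 : μ * (c1 / 2 * M) ≤ (bondLaw p).real A := by
    have := mul_le_mul_of_nonneg_left j4 hμ0.le
    rwa [← mul_assoc μ μ⁻¹, mul_inv_cancel₀ hμ0.ne', one_mul] at this
  have j6 : min ε1 (ε2 * (c1 / 2)) * (n:ℝ)^(-(5/48) : ℝ) ≤ (bondLaw p).real A := by
    refine le_trans ?_ j5
    have e4 : μ * (c1 / 2 * M) = ε2 * (c1 / 2) * (n:ℝ)^(-(5/48) : ℝ) := by
      rw [hμ, hM]
      have : (n:ℝ)^(-(5/48) : ℝ) = (n:ℝ)^(-(91/48) : ℝ) * (n:ℝ)^(43/24 : ℝ) := by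
        rw [← Real.rpow_add hn0]
        norm_num
      rw [this]
      ring
    rw [e4]
    exact mul_le_mul_of_nonneg_right (min_le_right _ _) (by positivity)
  refine le_trans (ENNReal.ofReal_le_ofReal j6) ?_
  rw [measureReal_def, ENNReal.ofReal_toReal (measure_ne_top _ _)]
  exact measure_mono hAsub

end Pool.Agent.Y554.NC
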